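import Pool.Agent.Helper82K9.PR.PU6

set_option autoImplicit false

/-! Sets of shifts. -/

namespace Pool.Agent.Helper82K9.PV

open Finset Filter Pool.Agent.Helper82K9.PR

/-- the weight of the primes at the points `n + q` -/
noncomputable def FQ {d : ℕ} (L : ℝ) (v : Fin (d + 1) → ℤ) (n : ℕ) (Q : Finset ℕ) : ℝ := ∏ q ∈ Q, om L (pv v (n + q))

/-- the model at the points `n + q` -/
noncomputable def RQ {d : ℕ} (z : ℕ) (v : Fin (d + 1) → ℤ) (n : ℕ) (Q : Finset ℕ) : ℝ :=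
  ∏ q ∈ Q, MM (primorial z) (pv v (n + q))

/-- the mean value of the main term -/
noncomputable def kQ (z : ℕ) (Q : Finset ℕ) : ℝ :=
  ∏ p ∈ Nat.primesLE z, ((1 - 1 / (p : ℝ)) ^ (Q.card - (Q.image (fun t => t % p)).card))⁻¹

/-- the elements of a set in increasing order -/
def hQ (Q : Finset ℕ) : Fin Q.card → ℕ := fun i => Q.orderEmbOfFin rfl i

lemma hQ_inj (Q : Finset ℕ) : Function.Injective (hQ Q) := fun _ _ hij => (Q.orderEmbOfFin rfl).injective hij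

lemma hQ_mem (Q : Finset ℕ) (i : Fin Q.card) : hQ Q i ∈ Q := Q.orderEmbOfFin_mem rfl i

lemma hQ_image (Q : Finset ℕ) : univ.image (hQ Q) = Q := Q.image_orderEmbOfFin_univ rfl

lemma prod_hQ (Q : Finset ℕ) (f : ℕ → ℝ) : ∏ i, f (hQ Q i) = ∏ q ∈ Q, f q := by
  conv_rhs => rw [← hQ_image Q]
  rw [prod_image (fun a _ b _ hab => hQ_inj Q hab)]

lemma FF_hQ {d : ℕ} (L : ℝ) (v : Fin (d + 1) → ℤ) (n : ℕ) (Q : Finset ℕ) :
    FF L (hQ Q) (fun _ _ => 0) v n = FQ L v n Q := by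
  unfold FF FQ
  simp only [add_zero]
  exact prod_hQ Q (fun q => om L (pv v (n + q)))

lemma RR_hQ {d : ℕ} (z : ℕ) (v : Fin (d + 1) → ℤ) (n : ℕ) (Q : Finset ℕ) :
    RR z (hQ Q) (fun _ _ => 0) v n = RQ z v n Q := by
  unfold RR RQ
  simp only [add_zero]
  exact prod_hQ Q (fun q => MM (primorial z) (pv v (n + q)))

lemma kap_hQ (z : ℕ) (Q : Finset ℕ) : kap z (hQ Q) = kQ z Q := by
  unfold kap kQ
  apply prod_congr rfl
  intro p _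
  have : nuh (hQ Q) p = (Q.image (fun t => t % p)).card := by
    unfold nuh
    congr 1
    conv_rhs => rw [← hQ_image Q]
    rw [image_image]
    rfl
  rw [this]

lemma FQ_nonneg {d : ℕ} {L : ℝ} (hL : 0 ≤ L) (v : Fin (d + 1) → ℤ) (n : ℕ) (Q : Finset ℕ) : 0 ≤ FQ L v n Q :=
  prod_nonneg fun _ _ => om_nonneg hL _

lemma RQ_nonneg {d : ℕ} (z : ℕ) (v : Fin (d + 1) → ℤ) (n : ℕ) (Q : Finset ℕ) : 0 ≤ RQ z v n Q :=
  prod_nonneg fun _ _ => MM_nonneg _ _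

lemma one_le_kQ (z : ℕ) (Q : Finset ℕ) : 1 ≤ kQ z Q := by
  rw [← kap_hQ]; exact one_le_kap _ _

lemma kQ_le (z : ℕ) (Q : Finset ℕ) : kQ z Q ≤ Cz z ^ Q.card := by
  unfold kQ
  rw [Cz_eq', ← prod_pow]
  apply Finset.prod_le_prod
  · intro p hp
    obtain ⟨h1, h2⟩ := one_sub_pos p (Nat.prime_of_mem_primesLE hp)
    positivity
  · intro p hp
    obtain ⟨h1, h2⟩ := one_sub_pos p (Nat.prime_of_mem_primesLE hp)
    rw [← inv_pow]
    apply pow_le_pow_right₀ _ (Nat.sub_le _ _)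
    rw [one_le_inv₀ h1]
    exact h2

/-- first absolute moments -/
theorem absQ (K0 d B0 : ℕ) (hd : 2 * K0 ≤ d + 1) (ε : ℝ) (hε : 0 < ε) : ∃ A : ℕ, 3 ≤ A ∧ ∀ H : ℕ, A ≤ H → ∀ x : ℕ,
    Real.log H ^ (K0 + 1) ≤ x → (x : ℝ) ≤ Real.log H ^ B0 → ∀ Q : Finset ℕ, (∀ q ∈ Q, q ≤ x) → 1 ≤ Q.card →
    Q.card ≤ K0 → ∀ w : ℕ → ℝ, (∀ n, |w n| ≤ 1) →
    ∑ v ∈ Bx d H, |∑ n ∈ Icc 1 x, w n * (FQ (Real.log H) v n Q - RQ (zH H) v n Q)| ≤ ε * kQ (zH H) Q * x * (Bx d H).card := by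
  have hex : ∀ k : ℕ, ∃ A : ℕ, 3 ≤ A ∧ (1 ≤ k → k ≤ K0 → ∀ H : ℕ, A ≤ H → ∀ x : ℕ,
    A * Real.log H ^ k ≤ x → (x : ℝ) ≤ Real.log H ^ B0 → ∀ h : Fin k → ℕ, Function.Injective h → (∀ i, h i ≤ x) →
    ∀ w : ℕ → ℂ, (∀ n, ‖w n‖ ≤ 1) →
    ∑ v ∈ Bx d H, ‖∑ n ∈ Icc 1 x, w n * ((FF (Real.log H) h (fun _ _ => 0) v n - RR (zH H) h (fun _ _ => 0) v n : ℝ) : ℂ)‖ ^ 2 ≤
      ε ^ 2 * kap (zH H) h ^ 2 * x ^ 2 * (Bx d H).card) := by
    intro k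
    by_cases hk : 1 ≤ k ∧ k ≤ K0
    · obtain ⟨A, hA, h1⟩ := secondU k hk.1 d (by omega) B0 0 (ε ^ 2) (by positivity)
      exact ⟨A, hA, fun _ _ H hH x h2 h3 h hh h4 w hw => h1 H hH x h2 h3 h hh h4 (fun _ _ => 0) (fun n _ i => by simp) w hw⟩
    · exact ⟨3, le_rfl, fun h1 h2 => absurd ⟨h1, h2⟩ hk⟩
  choose A hA3 hA using hex
  set A1 := (range (K0 + 1)).sup A with hA1
  have hlog : Tendsto (fun n : ℕ => Real.log n) atTop atTop := Real.tendsto_log_atTop.comp tendsto_natCast_atTop_atTop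
  obtain ⟨H1, hH1⟩ := (hlog.eventually_ge_atTop (A1 + 1 : ℝ)).exists_forall_of_atTop
  refine ⟨max (max A1 H1) 3, le_max_right _ _, fun H hH x hx hxB Q hQx hQ1 hQK w hw => ?_⟩
  have hAQ : A Q.card ≤ A1 := le_sup (f := A) (mem_range.2 (by omega))
  have hL := hH1 H ((le_max_right _ _).trans ((le_max_left _ _).trans hH))
  have hHA : A Q.card ≤ H := hAQ.trans (((le_max_left _ _).trans (le_max_left _ _)).trans hH)
  set L := Real.log H with hLdef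
  have hA1r : (A Q.card : ℝ) ≤ L := by
    have : (A Q.card : ℝ) ≤ A1 := by exact_mod_cast hAQ
    linarith
  have hL1 : 1 ≤ L := by
    have : (0 : ℝ) ≤ A1 := Nat.cast_nonneg _
    linarith
  have hxA : A Q.card * L ^ Q.card ≤ x := by
    refine le_trans ?_ hx
    calc A Q.card * L ^ Q.card ≤ L * L ^ K0 := by
          apply mul_le_mul hA1r (pow_le_pow_right₀ hL1 hQK) (by positivity) (by linarith)
      _ = _ := by ring
  have h1 := hA Q.card hQ1 hQK H hHA x hxA hxB (hQ Q) (hQ_inj Q) (fun i => hQx _ (hQ_mem Q i)) (fun n => (w n : ℂ))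
    (fun n => by rw [Complex.norm_real]; exact hw n)
  simp only [FF_hQ, RR_hQ, kap_hQ] at h1
  set N : ℝ := ((Bx d H).card : ℝ) with hN
  have hN0 : 0 ≤ N := Nat.cast_nonneg _
  have e1 : ∀ v : Fin (d + 1) → ℤ, ‖∑ n ∈ Icc 1 x, (w n : ℂ) * ((FQ L v n Q - RQ (zH H) v n Q : ℝ) : ℂ)‖ =
      |∑ n ∈ Icc 1 x, w n * (FQ L v n Q - RQ (zH H) v n Q)| := by
    intro v
    rw [← Real.norm_eq_abs, ← Complex.norm_real]
    congr 1
    push_cast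
    rfl
  rw [sum_congr rfl (fun v _ => by rw [e1 v])] at h1
  have hκ := one_le_kQ (zH H) Q
  have h2 : (∑ v ∈ Bx d H, |∑ n ∈ Icc 1 x, w n * (FQ L v n Q - RQ (zH H) v n Q)|) ^ 2 ≤
      (ε * kQ (zH H) Q * x * N) ^ 2 := by
    refine (sq_sum_le_card_mul_sum_sq).trans ?_
    calc _ ≤ N * (ε ^ 2 * kQ (zH H) Q ^ 2 * x ^ 2 * N) := mul_le_mul_of_nonneg_left h1 hN0
      _ = _ := by ring
  exact le_of_sq_le_sq h2 (by positivity)

/-- mean values of the model and of the weights of the primes -/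
theorem meanQ (K0 d B0 : ℕ) (hd : 2 * K0 ≤ d + 1) : ∃ A : ℕ, 3 ≤ A ∧ ∀ H : ℕ, A ≤ H → ∀ x : ℕ,
    Real.log H ^ (K0 + 1) ≤ x → (x : ℝ) ≤ Real.log H ^ B0 → ∀ Q : Finset ℕ, (∀ q ∈ Q, q ≤ x) → 1 ≤ Q.card →
    Q.card ≤ K0 → ∑ v ∈ Bx d H, ∑ n ∈ Icc 1 x, (FQ (Real.log H) v n Q + RQ (zH H) v n Q) ≤
      5 * kQ (zH H) Q * x * (Bx d H).card := by
  obtain ⟨A1, hA13, h1⟩ := absQ K0 d B0 hd 1 one_pos
  have hex : ∀ k : ℕ, ∃ H0 : ℕ, k ≤ K0 → ∀ H : ℕ, H0 ≤ H → ∀ X : ℕ, (X : ℝ) ≤ Real.log H ^ (B0 + 1) →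
    ∀ h : Fin k → ℕ, ∀ G : ℕ → Fin k → ℤ, ∀ n : ℕ, (∀ i, n + h i ≤ X) →
    ∑ v ∈ Bx d H, RR (zH H) h G v n ≤ 2 * kap (zH H) h * (Bx d H).card := by
    intro k
    by_cases hk : k ≤ K0
    · obtain ⟨H0, hH0, h1⟩ := RR_mean k d (B0 + 1) (by omega)
      exact ⟨H0, fun _ => h1⟩
    · exact ⟨3, fun h1 => absurd h1 hk⟩
  choose A hA using hex
  set A2 := (range (K0 + 1)).sup A with hA2
  have hlog : Tendsto (fun n : ℕ => Real.log n) atTop atTop := Real.tendsto_log_atTop.comp tendsto_natCast_atTop_atTop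
  obtain ⟨H1, hH1⟩ := (hlog.eventually_ge_atTop (2 : ℝ)).exists_forall_of_atTop
  refine ⟨max (max A1 A2) H1, (hA13.trans (le_max_left _ _)).trans (le_max_left _ _), fun H hH x hx hxB Q hQx hQ1 hQK => ?_⟩
  have hL := hH1 H ((le_max_right _ _).trans hH)
  have h2 := h1 H (((le_max_left _ _).trans (le_max_left _ _)).trans hH) x hx hxB Q hQx hQ1 hQK (fun _ => 1) (fun _ => by simp)
  have hAQ : A Q.card ≤ H := (le_sup (f := A) (mem_range.2 (by omega))).trans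
    (((le_max_right _ _).trans (le_max_left _ _)).trans hH)
  set L := Real.log H with hLdef
  set N : ℝ := ((Bx d H).card : ℝ) with hN
  have hXL : ((2 * x : ℕ) : ℝ) ≤ L ^ (B0 + 1) := by
    rw [pow_succ]
    push_cast
    have : (0 : ℝ) ≤ x := Nat.cast_nonneg _
    nlinarith
  have h3 : ∀ n ∈ Icc 1 x, ∑ v ∈ Bx d H, RQ (zH H) v n Q ≤ 2 * kQ (zH H) Q * N := by
    intro n hn
    have := hA Q.card hQK H hAQ (2 * x) hXL (hQ Q) (fun _ _ => 0) n (fun i => by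
      have := hQx _ (hQ_mem Q i)
      rw [mem_Icc] at hn
      omega)
    simp only [RR_hQ, kap_hQ] at this
    exact this
  have h4 : ∑ v ∈ Bx d H, ∑ n ∈ Icc 1 x, RQ (zH H) v n Q ≤ 2 * kQ (zH H) Q * x * N := by
    rw [sum_comm]
    calc _ ≤ ∑ n ∈ Icc 1 x, 2 * kQ (zH H) Q * N := sum_le_sum h3
      _ = _ := by rw [sum_const, Nat.card_Icc, Nat.add_sub_cancel, nsmul_eq_mul]; ring
  have h5 : ∑ v ∈ Bx d H, ∑ n ∈ Icc 1 x, (FQ L v n Q + RQ (zH H) v n Q) ≤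
      ∑ v ∈ Bx d H, |∑ n ∈ Icc 1 x, 1 * (FQ L v n Q - RQ (zH H) v n Q)| +
      2 * ∑ v ∈ Bx d H, ∑ n ∈ Icc 1 x, RQ (zH H) v n Q := by
    rw [mul_sum, ← sum_add_distrib]
    apply sum_le_sum
    intro v _
    have h6 := le_abs_self (∑ n ∈ Icc 1 x, 1 * (FQ L v n Q - RQ (zH H) v n Q))
    have h7 : ∑ n ∈ Icc 1 x, 1 * (FQ L v n Q - RQ (zH H) v n Q) =
        ∑ n ∈ Icc 1 x, FQ L v n Q - ∑ n ∈ Icc 1 x, RQ (zH H) v n Q := by
      simp only [one_mul, sum_sub_distrib]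
    rw [sum_add_distrib]
    linarith
  have hκ := one_le_kQ (zH H) Q
  linarith

end Pool.Agent.Helper82K9.PV
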