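import Pool.Agent.Helper82K9.PV.PV1

set_option autoImplicit false

/-! Sums over increasing tuples of shifts. -/

namespace Pool.Agent.Helper82K9.PV

open Finset Filter Pool.Agent.Helper82K9.PR

/-- the points of the pairs `t`, `t + 2` -/
def P2 (σ : Finset ℕ) : Finset ℕ := σ ∪ σ.image (fun t => t + 2)

/-- the number of the coincidences -/
def cc (σ : Finset ℕ) : ℕ := (σ ∩ σ.image (fun t => t + 2)).card

lemma prodT (σ : Finset ℕ) (f : ℕ → ℝ) (c : ℝ) (hf : ∀ q, f q * f q = c * f q) :
    ∏ t ∈ σ, (f t * f (t + 2)) = c ^ cc σ * ∏ q ∈ P2 σ, f q := by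
  have h1 : ∏ t ∈ σ, f (t + 2) = ∏ q ∈ σ.image (fun t => t + 2), f q := by
    rw [prod_image]
    intro a _ b _ hab
    simpa using hab
  rw [prod_mul_distrib, h1, ← prod_union_inter]
  unfold cc P2
  set I := σ ∩ σ.image (fun t => t + 2) with hI
  set U := σ ∪ σ.image (fun t => t + 2) with hU
  have hIU : I ⊆ U := fun q hq => mem_union_left _ (mem_inter.1 hq).1
  rw [← prod_sdiff hIU]
  have h2 : (∏ q ∈ I, f q) * ∏ q ∈ I, f q = c ^ I.card * ∏ q ∈ I, f q := by
    rw [← prod_mul_distrib, prod_congr rfl (fun q _ => hf q), prod_mul_distrib, prod_const]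
  rw [mul_assoc, h2]
  ring

lemma P2_insert (σ : Finset ℕ) (t : ℕ) : P2 (insert t σ) = insert (t + 2) (insert t (P2 σ)) := by
  unfold P2
  ext q
  simp only [mem_union, mem_insert, mem_image]
  constructor
  · rintro ((h | h) | ⟨a, (h | h), h2⟩)
    · exact Or.inr (Or.inl h)
    · exact Or.inr (Or.inr (Or.inl h))
    · left; omega
    · exact Or.inr (Or.inr (Or.inr ⟨a, h, h2⟩))
  · rintro (h | h | h | ⟨a, h1, h2⟩)
    · exact Or.inr ⟨t, Or.inl rfl, h.symm⟩
    · exact Or.inl (Or.inl h)
    · exact Or.inl (Or.inr h)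
    · exact Or.inr ⟨a, Or.inr h1, h2⟩

lemma P2_card (σ : Finset ℕ) : (P2 σ).card ≤ 2 * σ.card := by
  unfold P2
  refine (card_union_le _ _).trans ?_
  have := card_image_le (s := σ) (f := fun t => t + 2)
  omega

lemma inter_insert_sub (σ : Finset ℕ) (t : ℕ) (ht : ∀ q ∈ σ, q < t) :
    (insert t σ) ∩ (insert t σ).image (fun t => t + 2) ⊆ (σ ∩ σ.image (fun t => t + 2)) ∪
      (if t ∈ σ.image (fun t => t + 2) then {t} else ∅) := by
  intro q hq
  rw [mem_inter, mem_insert, mem_image] at hq
  obtain ⟨h1, a, ha, h2⟩ := hq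
  rw [mem_insert] at ha
  rcases h1 with h1 | h1
  · rcases ha with ha | ha
    · omega
    · have h3 : t ∈ σ.image (fun t => t + 2) := mem_image.2 ⟨a, ha, by omega⟩
      rw [if_pos h3, h1]
      exact mem_union_right _ (mem_singleton_self t)
  · rcases ha with ha | ha
    · have := ht q h1
      omega
    · exact mem_union_left _ (mem_inter.2 ⟨h1, mem_image.2 ⟨a, ha, h2⟩⟩)

lemma cc_insert (σ : Finset ℕ) (t : ℕ) (ht : ∀ q ∈ σ, q < t) :
    cc (insert t σ) ≤ cc σ + (if t ∈ σ.image (fun t => t + 2) then 1 else 0) := by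
  unfold cc
  refine (card_le_card (inter_insert_sub σ t ht)).trans ((card_union_le _ _).trans ?_)
  apply Nat.add_le_add_left
  split_ifs <;> simp

lemma dec (f : Finset ℕ → ℝ) (j s : ℕ) : ∑ u ∈ powersetCard (j + 1) (Ioo 0 s), f u =
    ∑ t ∈ Ioo 0 s, ∑ u ∈ powersetCard j (Ioo 0 t), f (insert t u) := by
  have hz : ∀ r : ℕ, r ≤ 1 → ∑ u ∈ powersetCard (j + 1) (Ioo 0 r), f u =
      ∑ t ∈ Ioo 0 r, ∑ u ∈ powersetCard j (Ioo 0 t), f (insert t u) := by
    intro r hr
    have h1 : Ioo 0 r = ∅ := by
      rw [eq_empty_iff_forall_notMem]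
      intro q hq
      rw [mem_Ioo] at hq
      omega
    have h2 : powersetCard (j + 1) (∅ : Finset ℕ) = ∅ := by
      rw [powersetCard_eq_empty, card_empty]
      omega
    rw [h1, h2, sum_empty, sum_empty]
  induction s with
  | zero => exact hz 0 (by omega)
  | succ s ih =>
    rcases Nat.eq_zero_or_pos s with h0 | h0
    · subst h0
      exact hz 1 (by omega)
    · have e1 : Ioo 0 (s + 1) = insert s (Ioo 0 s) := by
        ext q
        rw [mem_insert, mem_Ioo, mem_Ioo]
        omega
      have hs : s ∉ Ioo 0 s := by rw [mem_Ioo]; omega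
      rw [e1, powersetCard_succ_insert hs, sum_union, sum_insert hs, ih, sum_image]
      · ring
      · intro a ha b hb hab
        have ha' : s ∉ a := fun h => hs ((mem_powersetCard.1 (mem_coe.1 ha)).1 h)
        have hb' : s ∉ b := fun h => hs ((mem_powersetCard.1 (mem_coe.1 hb)).1 h)
        rw [← erase_insert ha', ← erase_insert hb', hab]
      · rw [disjoint_left]
        intro a ha hb
        rw [mem_image] at hb
        obtain ⟨b, _, rfl⟩ := hb
        exact hs ((mem_powersetCard.1 ha).1 (mem_insert_self _ _))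

lemma swap_le (j s : ℕ) (F : ℕ → Finset ℕ → ℝ) (F' : ℕ → Finset ℕ → ℝ)
    (h : ∀ t ∈ Ioo 0 s, ∀ u ∈ powersetCard j (Ioo 0 t), F t u ≤ F' t u) (h0 : ∀ t u, 0 ≤ F' t u) :
    ∑ t ∈ Ioo 0 s, ∑ u ∈ powersetCard j (Ioo 0 t), F t u ≤
      ∑ u ∈ powersetCard j (Ioo 0 s), ∑ t ∈ Ioo 0 s, F' t u := by
  rw [sum_comm (s := powersetCard j (Ioo 0 s))]
  apply sum_le_sum
  intro t ht
  refine (sum_le_sum (h t ht)).trans ?_
  apply sum_le_sum_of_subset_of_nonneg
  · apply powersetCard_mono
    apply Ioo_subset_Ioo_right
    rw [mem_Ioo] at ht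
    omega
  · intro u _ _
    exact h0 t u

lemma mem_small (u : Finset ℕ) (j t : ℕ) (ht : 0 < t) (hu : u ∈ powersetCard j (Ioo 0 t)) :
    (∀ q ∈ insert 0 u, q < t) ∧ (insert 0 u).card = j + 1 := by
  rw [mem_powersetCard] at hu
  refine ⟨fun q hq => ?_, ?_⟩
  · rw [mem_insert] at hq
    rcases hq with hq | hq
    · omega
    · exact (mem_Ioo.1 (hu.1 hq)).2
  · rw [card_insert_of_notMem, hu.2]
    intro h
    have := (mem_Ioo.1 (hu.1 h)).1
    omega

/-- the sums of the powers which belong to the coincidences -/
lemma XY (K M : ℕ) (L : ℝ) (hL : 1 ≤ L) (hLM : L ≤ M) (j : ℕ) (hj : j + 1 ≤ K) (s : ℕ) (hs : s ≤ M + 1) :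
    ∑ u ∈ powersetCard j (Ioo 0 s), L ^ cc (insert 0 u) ≤ (K * M) ^ j ∧
    (∑ u ∈ powersetCard j (Ioo 0 s), if 1 ≤ cc (insert 0 u) then L ^ cc (insert 0 u) else 0) * M ≤ j * (K * M) ^ j * L := by
  have hM1 : (1 : ℝ) ≤ M := hL.trans hLM
  induction j with
  | zero =>
    have e1 : cc ({0} : Finset ℕ) = 0 := by decide
    simp [e1]
  | succ j ih =>
    obtain ⟨ih1, ih2⟩ := ih (by omega)
    -- the sum over the last element
    have hT : ∀ u : Finset ℕ, u.card = j → ∑ t ∈ Ioo 0 s, (if t ∈ (insert 0 u).image (fun t => t + 2) then L else 1) ≤ K * M := by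
      intro u hu
      calc ∑ t ∈ Ioo 0 s, (if t ∈ (insert 0 u).image (fun t => t + 2) then L else 1) ≤
            ∑ t ∈ Ioo 0 s, (1 + if t ∈ (insert 0 u).image (fun t => t + 2) then L else 0) := by
            apply sum_le_sum
            intro t _
            split_ifs <;> linarith
        _ = ((Ioo 0 s).card : ℝ) + ∑ t ∈ (Ioo 0 s).filter (fun t => t ∈ (insert 0 u).image (fun t => t + 2)), L := by
            rw [sum_add_distrib, sum_const, nsmul_eq_mul, mul_one, sum_filter]
        _ ≤ M + (j + 1) * L := by
            apply add_le_add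
            · rw [Nat.card_Ioo]
              exact_mod_cast (by omega : s - 0 - 1 ≤ M)
            · rw [sum_const, nsmul_eq_mul]
              apply mul_le_mul_of_nonneg_right _ (by linarith)
              have h1 : (((Ioo 0 s).filter (fun t => t ∈ (insert 0 u).image (fun t => t + 2))).card) ≤ j + 1 := by
                refine (card_le_card (t := (insert 0 u).image (fun t => t + 2)) ?_).trans (card_image_le.trans ?_)
                · intro t ht
                  exact (mem_filter.1 ht).2
                · refine (card_insert_le _ _).trans ?_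
                  omega
              exact_mod_cast h1
        _ ≤ M + (j + 1) * M := by gcongr
        _ = (j + 2) * M := by ring
        _ ≤ K * M := by
            apply mul_le_mul_of_nonneg_right _ (by linarith)
            exact_mod_cast (by omega : j + 2 ≤ K)
    have hT2 : ∀ u : Finset ℕ, u.card = j → ∑ t ∈ Ioo 0 s, (if t ∈ (insert 0 u).image (fun t => t + 2) then L else 0) ≤ K * L := by
      intro u hu
      rw [← sum_filter, sum_const, nsmul_eq_mul]
      apply mul_le_mul_of_nonneg_right _ (by linarith)
      have h1 : (((Ioo 0 s).filter (fun t => t ∈ (insert 0 u).image (fun t => t + 2))).card) ≤ j + 1 := by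
        refine (card_le_card (t := (insert 0 u).image (fun t => t + 2)) ?_).trans (card_image_le.trans ?_)
        · intro t ht
          exact (mem_filter.1 ht).2
        · refine (card_insert_le _ _).trans ?_
          omega
      exact_mod_cast h1.trans (by omega)
    have hcc : ∀ t ∈ Ioo 0 s, ∀ u ∈ powersetCard j (Ioo 0 t), cc (insert 0 (insert t u)) ≤
        cc (insert 0 u) + (if t ∈ (insert 0 u).image (fun t => t + 2) then 1 else 0) := by
      intro t ht u hu
      rw [Finset.insert_comm]
      exact cc_insert _ t (mem_small u j t (mem_Ioo.1 ht).1 hu).1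
    constructor
    · rw [dec]
      refine (swap_le j s _ (fun t u => L ^ cc (insert 0 u) * (if t ∈ (insert 0 u).image (fun t => t + 2) then L else 1))
        ?_ ?_).trans ?_
      · intro t ht u hu
        refine (pow_le_pow_right₀ hL (hcc t ht u hu)).trans (le_of_eq ?_)
        rw [pow_add]
        split_ifs <;> simp
      · intro t u
        have : (0 : ℝ) ≤ if t ∈ (insert 0 u).image (fun t => t + 2) then L else 1 := by split_ifs <;> linarith
        positivity
      · calc _ ≤ ∑ u ∈ powersetCard j (Ioo 0 s), L ^ cc (insert 0 u) * (K * M) := by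
              apply sum_le_sum
              intro u hu
              rw [← mul_sum]
              apply mul_le_mul_of_nonneg_left (hT u (mem_powersetCard.1 hu).2) (by positivity)
          _ = (∑ u ∈ powersetCard j (Ioo 0 s), L ^ cc (insert 0 u)) * (K * M) := by rw [sum_mul]
          _ ≤ (K * M) ^ j * (K * M) := mul_le_mul_of_nonneg_right ih1 (by positivity)
          _ = _ := by rw [pow_succ]
    · rw [dec]
      have h1 := swap_le j s (fun t u => if 1 ≤ cc (insert 0 (insert t u)) then L ^ cc (insert 0 (insert t u)) else 0)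
        (fun t u => (if 1 ≤ cc (insert 0 u) then L ^ cc (insert 0 u) else 0) *
          (if t ∈ (insert 0 u).image (fun t => t + 2) then L else 1) +
          L ^ cc (insert 0 u) * (if t ∈ (insert 0 u).image (fun t => t + 2) then L else 0)) (by
          intro t ht u hu
          have h2 := hcc t ht u hu
          have h3 := pow_le_pow_right₀ hL h2
          rw [pow_add] at h3
          have h4 : (0 : ℝ) < L ^ cc (insert 0 u) := by positivity
          by_cases ht2 : t ∈ (insert 0 u).image (fun t => t + 2)
          · rw [if_pos ht2] at h3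
            rw [if_pos ht2, if_pos ht2]
            rw [pow_one] at h3
            have h5 : (0 : ℝ) ≤ (if 1 ≤ cc (insert 0 u) then L ^ cc (insert 0 u) else 0) * L := by
              split_ifs <;> positivity
            split_ifs with h6 h7 h7
            · have : 0 ≤ L ^ cc (insert 0 u) * L := by positivity
              linarith
            · rw [zero_mul, zero_add]; exact h3
            · positivity
            · positivity
          · rw [if_neg ht2] at h2 h3
            rw [if_neg ht2, if_neg ht2]
            rw [pow_zero, mul_one] at h3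
            rw [mul_one, mul_zero, add_zero]
            split_ifs with h6 h7 h7
            · exact h3
            · omega
            · positivity
            · exact le_rfl) (by
          intro t u
          have h1 : (0 : ℝ) ≤ if 1 ≤ cc (insert 0 u) then L ^ cc (insert 0 u) else 0 := by split_ifs <;> positivity
          have h2 : (0 : ℝ) ≤ if t ∈ (insert 0 u).image (fun t => t + 2) then L else 1 := by split_ifs <;> linarith
          have h3 : (0 : ℝ) ≤ if t ∈ (insert 0 u).image (fun t => t + 2) then L else 0 := by split_ifs <;> linarith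
          positivity)
      calc _ ≤ (∑ u ∈ powersetCard j (Ioo 0 s), ∑ t ∈ Ioo 0 s, ((if 1 ≤ cc (insert 0 u) then L ^ cc (insert 0 u) else 0) *
          (if t ∈ (insert 0 u).image (fun t => t + 2) then L else 1) +
          L ^ cc (insert 0 u) * (if t ∈ (insert 0 u).image (fun t => t + 2) then L else 0))) * M :=
            mul_le_mul_of_nonneg_right h1 (by positivity)
        _ ≤ (∑ u ∈ powersetCard j (Ioo 0 s), ((if 1 ≤ cc (insert 0 u) then L ^ cc (insert 0 u) else 0) * (K * M) +
            L ^ cc (insert 0 u) * (K * L))) * M := by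
            apply mul_le_mul_of_nonneg_right _ (by positivity)
            apply sum_le_sum
            intro u hu
            rw [sum_add_distrib, ← mul_sum, ← mul_sum]
            have h2 := hT u (mem_powersetCard.1 hu).2
            have h3 := hT2 u (mem_powersetCard.1 hu).2
            have h4 : (0 : ℝ) ≤ if 1 ≤ cc (insert 0 u) then L ^ cc (insert 0 u) else 0 := by split_ifs <;> positivity
            gcongr
        _ = ((∑ u ∈ powersetCard j (Ioo 0 s), if 1 ≤ cc (insert 0 u) then L ^ cc (insert 0 u) else 0) * M) * (K * M) +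
            (∑ u ∈ powersetCard j (Ioo 0 s), L ^ cc (insert 0 u)) * (K * M * L) := by
            rw [sum_add_distrib, ← sum_mul, ← sum_mul]
            ring
        _ ≤ (j * (K * M) ^ j * L) * (K * M) + (K * M) ^ j * (K * M * L) := by gcongr
        _ = _ := by push_cast; ring

end Pool.Agent.Helper82K9.PV
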