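import Pool.Agent.Helper82K9.PV.PV2

set_option autoImplicit false

/-! The average of the mean value of the main term over increasing tuples of shifts. -/

namespace Pool.Agent.Helper82K9.PV

open Finset Filter Pool.Agent.Helper82K9.PR

lemma kQ_insert (z t : ℕ) (Q : Finset ℕ) :
    kQ z (insert t Q) ≤ kQ z Q * Real.exp (∑ q ∈ Q, 2 * sg 1 ((t : ℤ) - q).natAbs) := by
  classical
  have hsum0 : 0 ≤ ∑ q ∈ Q, 2 * sg 1 ((t : ℤ) - q).natAbs := sum_nonneg fun q _ => by
    have := sg_nonneg 1 ((t : ℤ) - q).natAbs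
    positivity
  have hk := one_le_kQ z Q
  by_cases ht : t ∈ Q
  · rw [insert_eq_of_mem ht]
    exact le_mul_of_one_le_right (by linarith) (Real.one_le_exp hsum0)
  · set χ : ℕ → ℕ := fun p => if t % p ∈ Q.image (fun t => t % p) then 1 else 0 with hχ
    have e1 : kQ z (insert t Q) = kQ z Q * ∏ p ∈ Nat.primesLE z, ((1 - 1 / (p : ℝ)) ^ χ p)⁻¹ := by
      unfold kQ
      rw [← prod_mul_distrib]
      apply prod_congr rfl
      intro p _
      rw [← mul_inv, ← pow_add]
      congr 2
      rw [card_insert_of_notMem ht, image_insert]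
      have h1 : (Q.image (fun t => t % p)).card ≤ Q.card := card_image_le
      rw [hχ]
      simp only
      split_ifs with h2
      · rw [insert_eq_of_mem h2]
        omega
      · rw [card_insert_of_notMem h2]
        omega
    rw [e1]
    apply mul_le_mul_of_nonneg_left _ (by linarith)
    calc ∏ p ∈ Nat.primesLE z, ((1 - 1 / (p : ℝ)) ^ χ p)⁻¹ ≤ ∏ p ∈ Nat.primesLE z, Real.exp (2 * (χ p * (1 / (p : ℝ)))) := by
          apply Finset.prod_le_prod
          · intro p hp
            obtain ⟨h1, h2⟩ := one_sub_pos p (Nat.prime_of_mem_primesLE hp)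
            positivity
          · intro p hp
            have hpp := Nat.prime_of_mem_primesLE hp
            obtain ⟨h1, h2⟩ := one_sub_pos p hpp
            have h3 : (1 - 1 / (p : ℝ))⁻¹ ≤ Real.exp (2 * (1 / (p : ℝ))) := by
              have h4 := Real.add_one_le_exp (2 * (1 / (p : ℝ)))
              refine le_trans ?_ h4
              rw [inv_le_iff_one_le_mul₀ h1]
              have h1 : (2 : ℝ) ≤ p := by exact_mod_cast hpp.two_le
              have h0 : 0 < 1 / (p : ℝ) := by positivity
              have h2 : 1 / (p : ℝ) ≤ 1 / 2 := by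
                apply one_div_le_one_div_of_le (by norm_num) h1
              nlinarith
            calc ((1 - 1 / (p : ℝ)) ^ χ p)⁻¹ = ((1 - 1 / (p : ℝ))⁻¹) ^ χ p := by rw [inv_pow]
              _ ≤ (Real.exp (2 * (1 / (p : ℝ)))) ^ χ p := pow_le_pow_left₀ (by positivity) h3 _
              _ = _ := by rw [← Real.exp_nat_mul]; congr 1; ring
      _ = Real.exp (∑ p ∈ Nat.primesLE z, 2 * (χ p * (1 / (p : ℝ)))) := by rw [Real.exp_sum]
      _ ≤ _ := by
          apply Real.exp_le_exp.2
          have h6 : ∀ p, (χ p : ℝ) ≤ ∑ q ∈ Q, if (p : ℤ) ∣ (t : ℤ) - q then (1 : ℝ) else 0 := by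
            intro p
            rw [hχ]
            simp only
            split_ifs with h2
            · rw [mem_image] at h2
              obtain ⟨q, hq, hqt⟩ := h2
              have h8 : (p : ℤ) ∣ (t : ℤ) - q := by
                have h9 : q ≡ t [MOD p] := hqt
                rw [← Int.natCast_modEq_iff, Int.modEq_iff_dvd] at h9
                exact h9
              calc ((1 : ℕ) : ℝ) = if (p : ℤ) ∣ (t : ℤ) - q then (1 : ℝ) else 0 := by rw [if_pos h8, Nat.cast_one]
                _ ≤ _ := single_le_sum (f := fun q : ℕ => if (p : ℤ) ∣ (t : ℤ) - q then (1 : ℝ) else 0)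
                  (fun i _ => by split_ifs <;> norm_num) hq
            · rw [Nat.cast_zero]
              exact sum_nonneg fun i _ => by split_ifs <;> norm_num
          calc ∑ p ∈ Nat.primesLE z, 2 * (χ p * (1 / (p : ℝ))) ≤ ∑ p ∈ Nat.primesLE z, 2 * ((∑ q ∈ Q,
                if (p : ℤ) ∣ (t : ℤ) - q then (1 : ℝ) else 0) * (1 / (p : ℝ))) := by
                apply sum_le_sum
                intro p _
                have := h6 p
                gcongr
            _ = ∑ q ∈ Q, 2 * ∑ p ∈ Nat.primesLE z, (if (p : ℤ) ∣ (t : ℤ) - q then (1 : ℝ) else 0) * (1 / (p : ℝ)) := by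
                simp only [sum_mul, mul_sum]
                rw [sum_comm]
            _ ≤ _ := by
                apply sum_le_sum
                intro q hq
                apply mul_le_mul_of_nonneg_left _ (by norm_num)
                unfold sg
                have hne : (t : ℤ) - q ≠ 0 := by
                  intro h
                  apply ht
                  have : t = q := by omega
                  rw [this]; exact hq
                calc ∑ p ∈ Nat.primesLE z, (if (p : ℤ) ∣ (t : ℤ) - q then (1 : ℝ) else 0) * (1 / (p : ℝ)) =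
                      ∑ p ∈ (Nat.primesLE z).filter (fun p : ℕ => (p : ℤ) ∣ (t : ℤ) - q), 1 / (p : ℝ) := by
                      rw [sum_filter]
                      apply sum_congr rfl
                      intro p _
                      split_ifs <;> ring
                  _ ≤ _ := by
                      apply sum_le_sum_of_subset_of_nonneg
                      · intro p hp
                        rw [mem_filter] at hp
                        have hpp := Nat.prime_of_mem_primesLE hp.1
                        unfold LP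
                        rw [mem_filter, Nat.mem_primeFactors]
                        exact ⟨⟨hpp, Int.natCast_dvd.1 hp.2, Int.natAbs_ne_zero.2 hne⟩, hpp.one_lt⟩
                      · intro p _ _
                        positivity

lemma exp_fin (R : Finset ℕ) (K : ℕ) (hR : R.card ≤ K) (y : ℕ → ℝ) (hy : ∀ q, 0 ≤ y q) :
    Real.exp (∑ q ∈ R, y q) ≤ 1 + ∑ q ∈ R, Real.exp (K * y q) := by
  rcases R.eq_empty_or_nonempty with h | h
  · subst h; simp
  · obtain ⟨m, hm, hmax⟩ := R.exists_max_image y h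
    have h1 : ∑ q ∈ R, y q ≤ K * y m := by
      calc ∑ q ∈ R, y q ≤ ∑ q ∈ R, y m := sum_le_sum hmax
        _ = R.card * y m := by rw [sum_const, nsmul_eq_mul]
        _ ≤ K * y m := by
          apply mul_le_mul_of_nonneg_right _ (hy m)
          exact_mod_cast hR
    calc Real.exp (∑ q ∈ R, y q) ≤ Real.exp (K * y m) := Real.exp_le_exp.2 h1
      _ ≤ ∑ q ∈ R, Real.exp (K * y q) := single_le_sum (f := fun q => Real.exp (K * y q)) (fun q _ => (Real.exp_pos _).le) hm
      _ ≤ _ := by linarith

lemma sum_shift (C : ℝ) (hC : 0 ≤ C) (M q δ : ℕ) (hM : 1 ≤ M) (hq : q ≤ M + 2) (hδ : δ ≤ 2) :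
    ∑ t ∈ Icc 1 M, Real.exp (C * sg 1 (((t + δ : ℕ) : ℤ) - q).natAbs) ≤ (1 + 16 * (Real.exp (C * Real.exp C) - 1)) * M := by
  have h0 : ∀ u : ℕ, 0 ≤ Real.exp (C * sg 1 u) - 1 := by
    intro u
    have h4 : 0 ≤ C * sg 1 u := by have := sg_nonneg 1 u; positivity
    have := Real.add_one_le_exp (C * sg 1 u)
    linarith
  have h1 := sum_dist (fun u => Real.exp (C * sg 1 u) - 1) h0 (by
    rw [sg_small 1 0 (Nat.zero_le _), mul_zero, Real.exp_zero, sub_self]) (M + 3) 3 (by omega) (q + 1) 0 (δ + 1) (by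
    rw [mem_Icc]; omega) (by omega) (by omega)
  have h2 := sum_exp_sg' C hC 1 (2 * (M + 3)) le_rfl
  have e1 : ∀ t ∈ Icc 1 M, Real.exp (C * sg 1 (((t + δ : ℕ) : ℤ) - q).natAbs) = 1 +
      (Real.exp (C * sg 1 ((((q + 1 : ℕ) : ℤ) + (0 : ℕ)) - (t + ((δ + 1 : ℕ) : ℤ))).natAbs) - 1) := by
    intro t _
    have : (((t + δ : ℕ) : ℤ) - q).natAbs = ((((q + 1 : ℕ) : ℤ) + (0 : ℕ)) - (t + ((δ + 1 : ℕ) : ℤ))).natAbs := by omega
    rw [this]
    ring
  rw [sum_congr rfl e1, sum_add_distrib, sum_const, Nat.card_Icc, Nat.add_sub_cancel, nsmul_eq_mul, mul_one]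
  have h3 : ∑ t ∈ Icc 1 M, (Real.exp (C * sg 1 ((((q + 1 : ℕ) : ℤ) + (0 : ℕ)) - (t + ((δ + 1 : ℕ) : ℤ))).natAbs) - 1) ≤
      ∑ t ∈ Icc 1 (M + 3), (Real.exp (C * sg 1 ((((q + 1 : ℕ) : ℤ) + (0 : ℕ)) - (t + ((δ + 1 : ℕ) : ℤ))).natAbs) - 1) := by
    apply sum_le_sum_of_subset_of_nonneg
    · exact Icc_subset_Icc_right (by omega)
    · intro t _ _
      exact h0 _
  have hζ : 0 ≤ Real.exp (C * Real.exp C) - 1 := by
    have h4 : 0 ≤ C * Real.exp C := by positivity
    have := Real.add_one_le_exp (C * Real.exp C)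
    linarith
  have hMr : (1 : ℝ) ≤ M := by exact_mod_cast hM
  push_cast at h1 h2 h3 ⊢
  rw [div_one] at h2
  have h4 : 2 * (2 * ((M : ℝ) + 3) * (Real.exp (C * Real.exp C) - 1)) ≤ 16 * M * (Real.exp (C * Real.exp C) - 1) := by
    have : 2 * (2 * ((M : ℝ) + 3)) ≤ 16 * M := by linarith
    nlinarith
  linarith

/-- the factor of one step, summed over the step -/
lemma step_sum (K : ℕ) : ∃ C : ℝ, 1 ≤ C ∧ ∀ M : ℕ, 1 ≤ M → ∀ R : Finset ℕ, R.card ≤ K → (∀ q ∈ R, q ≤ M + 2) →
    ∑ t ∈ Icc 1 M, Real.exp ((∑ q ∈ R, 2 * sg 1 ((t : ℤ) - q).natAbs) +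
      ∑ q ∈ insert t R, 2 * sg 1 (((t + 2 : ℕ) : ℤ) - q).natAbs) ≤ C * M := by
  set C1 : ℝ := 1 + 16 * (Real.exp ((4 * K) * Real.exp (4 * K)) - 1) with hC1
  have hC11 : 1 ≤ C1 := by
    have h4 : 0 ≤ (4 * (K : ℝ)) * Real.exp (4 * K) := by positivity
    have := Real.add_one_le_exp ((4 * (K : ℝ)) * Real.exp (4 * K))
    linarith
  set c0 := Real.exp (2 * sg 1 2) with hc0
  have hc01 : 1 ≤ c0 := Real.one_le_exp (by have := sg_nonneg 1 2; positivity)
  have hone : 1 ≤ c0 * (1 + K * (2 * C1)) := by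
    have h : 0 ≤ (K : ℝ) * (2 * C1) := by positivity
    calc (1 : ℝ) ≤ c0 * 1 := by linarith
      _ ≤ _ := by gcongr; linarith
  refine ⟨c0 * (1 + K * (2 * C1)), hone, fun M hM R hR hRM => ?_⟩
  have hMr : (1 : ℝ) ≤ M := by exact_mod_cast hM
  have h1 : ∀ t ∈ Icc 1 M, Real.exp ((∑ q ∈ R, 2 * sg 1 ((t : ℤ) - q).natAbs) +
      ∑ q ∈ insert t R, 2 * sg 1 (((t + 2 : ℕ) : ℤ) - q).natAbs) ≤ c0 * (1 + ∑ q ∈ R,
      (Real.exp (4 * K * sg 1 (((t + 0 : ℕ) : ℤ) - q).natAbs) + Real.exp (4 * K * sg 1 (((t + 2 : ℕ) : ℤ) - q).natAbs))) := by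
    intro t _
    have h2 : ∑ q ∈ insert t R, 2 * sg 1 (((t + 2 : ℕ) : ℤ) - q).natAbs ≤ 2 * sg 1 2 +
        ∑ q ∈ R, 2 * sg 1 (((t + 2 : ℕ) : ℤ) - q).natAbs := by
      by_cases ht : t ∈ R
      · rw [insert_eq_of_mem ht]
        have := sg_nonneg 1 2
        linarith
      · rw [sum_insert ht]
        have : (((t + 2 : ℕ) : ℤ) - t).natAbs = 2 := by omega
        rw [this]
    have h3 : (∑ q ∈ R, 2 * sg 1 ((t : ℤ) - q).natAbs) + ∑ q ∈ insert t R, 2 * sg 1 (((t + 2 : ℕ) : ℤ) - q).natAbs ≤
        2 * sg 1 2 + ∑ q ∈ R, (2 * sg 1 (((t + 0 : ℕ) : ℤ) - q).natAbs + 2 * sg 1 (((t + 2 : ℕ) : ℤ) - q).natAbs) := by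
      rw [sum_add_distrib]
      have e0 : ∑ q ∈ R, 2 * sg 1 (((t + 0 : ℕ) : ℤ) - q).natAbs = ∑ q ∈ R, 2 * sg 1 ((t : ℤ) - q).natAbs := rfl
      rw [e0]
      linarith
    refine (Real.exp_le_exp.2 h3).trans ?_
    rw [Real.exp_add]
    apply mul_le_mul_of_nonneg_left _ (by positivity)
    refine (exp_fin R K hR (fun q => 2 * sg 1 (((t + 0 : ℕ) : ℤ) - q).natAbs + 2 * sg 1 (((t + 2 : ℕ) : ℤ) - q).natAbs)
      (fun q => by
        have := sg_nonneg 1 (((t + 0 : ℕ) : ℤ) - q).natAbs
        have := sg_nonneg 1 (((t + 2 : ℕ) : ℤ) - q).natAbs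
        positivity)).trans ?_
    apply add_le_add_right
    apply sum_le_sum
    intro q _
    set a := sg 1 (((t + 0 : ℕ) : ℤ) - q).natAbs with ha
    set b := sg 1 (((t + 2 : ℕ) : ℤ) - q).natAbs with hb
    have hK : (0 : ℝ) ≤ K := Nat.cast_nonneg _
    rcases le_total a b with h | h
    · calc Real.exp (K * (2 * a + 2 * b)) ≤ Real.exp (4 * K * b) := by
            apply Real.exp_le_exp.2
            nlinarith
        _ ≤ _ := by have := Real.exp_pos (4 * K * a); linarith
    · calc Real.exp (K * (2 * a + 2 * b)) ≤ Real.exp (4 * K * a) := by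
            apply Real.exp_le_exp.2
            nlinarith
        _ ≤ _ := by have := Real.exp_pos (4 * K * b); linarith
  refine (sum_le_sum h1).trans ?_
  rw [← mul_sum, sum_add_distrib, sum_const, Nat.card_Icc, Nat.add_sub_cancel, nsmul_eq_mul, mul_one, sum_comm]
  rw [mul_assoc]
  apply mul_le_mul_of_nonneg_left _ (by positivity)
  rw [add_mul, one_mul]
  apply add_le_add_right
  calc ∑ q ∈ R, ∑ t ∈ Icc 1 M, (Real.exp (4 * K * sg 1 (((t + 0 : ℕ) : ℤ) - q).natAbs) +
        Real.exp (4 * K * sg 1 (((t + 2 : ℕ) : ℤ) - q).natAbs)) ≤ ∑ q ∈ R, (C1 * M + C1 * M) := by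
        apply sum_le_sum
        intro q hq
        rw [sum_add_distrib]
        apply add_le_add
        · exact sum_shift (4 * K) (by positivity) M q 0 hM (hRM q hq) (by norm_num)
        · exact sum_shift (4 * K) (by positivity) M q 2 hM (hRM q hq) le_rfl
    _ = R.card * (2 * C1 * M) := by rw [sum_const, nsmul_eq_mul]; ring
    _ ≤ K * (2 * C1 * M) := by
        apply mul_le_mul_of_nonneg_right _ (by positivity)
        exact_mod_cast hR
    _ = _ := by ring

/-- the average over the increasing tuples -/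
theorem avgK (J : ℕ) : ∃ C : ℝ, 1 ≤ C ∧ ∀ z M : ℕ, 1 ≤ M → ∀ j ≤ J, ∀ s ≤ M + 1,
    ∑ u ∈ powersetCard j (Ioo 0 s), kQ z (P2 (insert 0 u)) ≤ C ^ (j + 1) * M ^ j := by
  obtain ⟨C, hC1, hC⟩ := step_sum (2 * (J + 1))
  set c0 := Real.exp (2 * sg 1 2) with hc0
  have hc01 : 1 ≤ c0 := Real.one_le_exp (by have := sg_nonneg 1 2; positivity)
  refine ⟨max C c0, hC1.trans (le_max_left _ _), fun z M hM j => ?_⟩
  have hMr : (1 : ℝ) ≤ M := by exact_mod_cast hM
  induction j with
  | zero =>
    intro _ s _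
    rw [powersetCard_zero, sum_singleton, pow_zero, mul_one, zero_add, pow_one]
    have e1 : P2 (insert 0 (∅ : Finset ℕ)) = insert 2 (insert 0 ∅) := by decide
    have e2 : kQ z (∅ : Finset ℕ) = 1 := by unfold kQ; simp
    rw [e1]
    refine (kQ_insert z 2 (insert 0 ∅)).trans ?_
    have h1 := kQ_insert z 0 (∅ : Finset ℕ)
    rw [e2, sum_empty, Real.exp_zero, mul_one] at h1
    rw [insert_empty_eq, sum_singleton]
    have e3 : (((2 : ℕ) : ℤ) - ((0 : ℕ) : ℤ)).natAbs = 2 := by norm_num
    rw [e3]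
    rw [insert_empty_eq] at h1
    calc _ ≤ 1 * c0 := mul_le_mul_of_nonneg_right h1 (by positivity)
      _ ≤ _ := by rw [one_mul]; exact le_max_right _ _
  | succ j ih =>
    intro hj s hs
    have ih' := ih (by omega) s hs
    rw [dec]
    refine (swap_le j s _ (fun t u => kQ z (P2 (insert 0 u)) * Real.exp ((∑ q ∈ P2 (insert 0 u), 2 * sg 1 ((t : ℤ) - q).natAbs) +
      ∑ q ∈ insert t (P2 (insert 0 u)), 2 * sg 1 (((t + 2 : ℕ) : ℤ) - q).natAbs)) ?_ ?_).trans ?_
    · intro t _ u _
      rw [Finset.insert_comm, P2_insert]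
      refine (kQ_insert z (t + 2) _).trans ?_
      rw [Real.exp_add, ← mul_assoc]
      apply mul_le_mul_of_nonneg_right (kQ_insert z t _) (by positivity)
    · intro t u
      have := one_le_kQ z (P2 (insert 0 u))
      positivity
    · calc _ ≤ ∑ u ∈ powersetCard j (Ioo 0 s), kQ z (P2 (insert 0 u)) * (C * M) := by
            apply sum_le_sum
            intro u hu
            rw [← mul_sum]
            have h1 := one_le_kQ z (P2 (insert 0 u))
            apply mul_le_mul_of_nonneg_left _ (by linarith)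
            rw [mem_powersetCard] at hu
            refine le_trans ?_ (hC M hM (P2 (insert 0 u)) ?_ ?_)
            · apply sum_le_sum_of_subset_of_nonneg
              · intro t ht
                rw [mem_Ioo] at ht
                rw [mem_Icc]
                omega
              · intro t _ _
                positivity
            · refine (P2_card _).trans ?_
              have := card_insert_le 0 u
              omega
            · intro q hq
              unfold P2 at hq
              rw [mem_union, mem_image] at hq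
              have h2 : ∀ a ∈ insert 0 u, a ≤ M := by
                intro a ha
                rw [mem_insert] at ha
                rcases ha with ha | ha
                · omega
                · have := (mem_Ioo.1 (hu.1 ha)).2
                  omega
              rcases hq with hq | ⟨a, ha, haq⟩
              · have := h2 q hq
                omega
              · have := h2 a ha
                omega
        _ = (∑ u ∈ powersetCard j (Ioo 0 s), kQ z (P2 (insert 0 u))) * (C * M) := by rw [sum_mul]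
        _ ≤ (max C c0 ^ (j + 1) * M ^ j) * (max C c0 * M) := by
            apply mul_le_mul ih' _ (by positivity) (by positivity)
            apply mul_le_mul_of_nonneg_right (le_max_left _ _) (by positivity)
        _ = _ := by ring

end Pool.Agent.Helper82K9.PV
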