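import Pool.Agent.Helper82K9.PV.PV3

set_option autoImplicit false

/-! The total error over all increasing tuples of shifts. -/

namespace Pool.Agent.Helper82K9.PV

open Finset Filter Pool.Agent.Helper82K9.PR

/-- the weight of the pairs of primes at the points `n + t` and `n + t + 2` -/
noncomputable def TT {d : ℕ} (L : ℝ) (v : Fin (d + 1) → ℤ) (n : ℕ) (σ : Finset ℕ) : ℝ :=
  ∏ t ∈ σ, (om L (pv v (n + t)) * om L (pv v (n + (t + 2))))

/-- the model -/
noncomputable def RT {d : ℕ} (z : ℕ) (v : Fin (d + 1) → ℤ) (n : ℕ) (σ : Finset ℕ) : ℝ :=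
  ∏ t ∈ σ, (MM (primorial z) (pv v (n + t)) * MM (primorial z) (pv v (n + (t + 2))))

lemma TT_eq {d : ℕ} (L : ℝ) (v : Fin (d + 1) → ℤ) (n : ℕ) (σ : Finset ℕ) :
    TT L v n σ = L ^ cc σ * FQ L v n (P2 σ) := by
  unfold TT FQ
  apply prodT σ (fun q => om L (pv v (n + q)))
  intro q
  rw [← pow_two, om_sq]

lemma RT_eq {d : ℕ} (z : ℕ) (v : Fin (d + 1) → ℤ) (n : ℕ) (σ : Finset ℕ) :
    RT z v n σ = Cz z ^ cc σ * RQ z v n (P2 σ) := by
  unfold RT RQ
  apply prodT σ (fun q => MM (primorial z) (pv v (n + q)))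
  intro q
  unfold MM Cz
  split_ifs <;> ring

lemma TT_nonneg {d : ℕ} {L : ℝ} (hL : 0 ≤ L) (v : Fin (d + 1) → ℤ) (n : ℕ) (σ : Finset ℕ) : 0 ≤ TT L v n σ :=
  prod_nonneg fun _ _ => mul_nonneg (om_nonneg hL _) (om_nonneg hL _)

lemma RT_nonneg {d : ℕ} (z : ℕ) (v : Fin (d + 1) → ℤ) (n : ℕ) (σ : Finset ℕ) : 0 ≤ RT z v n σ :=
  prod_nonneg fun _ _ => mul_nonneg (MM_nonneg _ _) (MM_nonneg _ _)

theorem DJ (J d B0 : ℕ) (hd : 4 * (J + 2) ≤ d + 1) (ε : ℝ) (hε : 0 < ε) : ∃ A : ℕ, 3 ≤ A ∧ ∀ H : ℕ, A ≤ H → ∀ x : ℕ,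
    Real.log H ^ (2 * (J + 2) + 1) ≤ x → (x : ℝ) ≤ Real.log H ^ B0 → ∀ M : ℕ, Real.log H ^ 2 ≤ M → M + 2 ≤ x → ∀ j ≤ J,
    ∀ w : ℕ → ℕ → ℝ, (∀ s n, |w s n| ≤ 1) →
    ∑ v ∈ Bx d H, ∑ s ∈ Ioo 0 (M + 1), ∑ u ∈ powersetCard j (Ioo 0 s),
      |∑ n ∈ Icc 1 x, w s n * (TT (Real.log H) v n (insert 0 (insert s u)) - RT (zH H) v n (insert 0 (insert s u)))| ≤
      ε * (M : ℝ) ^ (j + 1) * x * (Bx d H).card := by
  obtain ⟨C, hC1, hC⟩ := avgK (J + 1)
  set K0 := 2 * (J + 2) with hK0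
  set ε1 := ε / (2 * C ^ (J + 2)) with hε1
  have hε10 : 0 < ε1 := by positivity
  obtain ⟨A1, hA13, hA1⟩ := absQ K0 d B0 (by omega) ε1 hε10
  obtain ⟨A2, hA23, hA2⟩ := meanQ K0 d B0 (by omega)
  set δ := ε / (10 * (J + 1) * (J + 2) ^ (J + 1)) with hδ
  have hδ0 : 0 < δ := by positivity
  obtain ⟨A3, hA33, hA3⟩ := zH_facts d B0 K0 δ hδ0
  refine ⟨max (max A1 A2) A3, (hA13.trans (le_max_left _ _)).trans (le_max_left _ _),
    fun H hH x hx hxB M hLM hMx j hj w hw => ?_⟩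
  have g1 := hA1 H (((le_max_left _ _).trans (le_max_left _ _)).trans hH) x hx hxB
  have g2 := hA2 H (((le_max_right _ _).trans (le_max_left _ _)).trans hH) x hx hxB
  obtain ⟨hL2, -, hprim, -, -, hCzK⟩ := hA3 H ((le_max_right _ _).trans hH)
  set z := zH H with hz
  set L := Real.log H with hLdef
  have hL1 : 1 ≤ L := by linarith
  have hL0 : 0 < L := by linarith
  have hM1r : (1 : ℝ) ≤ M := by nlinarith
  have hM0 : (0 : ℝ) < M := by linarith
  have hM1 : 1 ≤ M := by exact_mod_cast hM1r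
  have hLM' : L ≤ M := by nlinarith
  have hCz := Cz_ge z
  have hW1 : (1 : ℝ) ≤ primorial z := by exact_mod_cast primorial_pos z
  have hCzL : Cz z ≤ L := by
    unfold Cz
    refine le_trans (div_le_self (by positivity) ?_) hprim
    exact_mod_cast Nat.totient_pos.2 (primorial_pos z)
  have hCzK' : Cz z ^ K0 ≤ δ * L := by
    refine le_trans ?_ hCzK
    exact le_mul_of_one_le_right (by positivity) hW1
  set N : ℝ := ((Bx d H).card : ℝ) with hN
  have hN0 : 0 ≤ N := Nat.cast_nonneg _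
  have hx0 : (0 : ℝ) ≤ x := Nat.cast_nonneg _
  -- one tuple
  have hone : ∀ s ∈ Ioo 0 (M + 1), ∀ u ∈ powersetCard j (Ioo 0 s),
      ∑ v ∈ Bx d H, |∑ n ∈ Icc 1 x, w s n * (TT L v n (insert 0 (insert s u)) - RT z v n (insert 0 (insert s u)))| ≤
      ε1 * kQ z (P2 (insert 0 (insert s u))) * x * N +
      (if 1 ≤ cc (insert 0 (insert s u)) then L ^ cc (insert 0 (insert s u)) else 0) * (5 * Cz z ^ K0 * x * N) := by
    intro s hs u hu
    rw [mem_Ioo] at hs
    rw [mem_powersetCard] at hu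
    set σ := insert 0 (insert s u) with hσ
    have hσc : σ.card ≤ j + 2 := by
      rw [hσ]
      refine (card_insert_le _ _).trans ?_
      have := card_insert_le s u
      omega
    have hQc : (P2 σ).card ≤ K0 := by
      refine (P2_card σ).trans ?_
      omega
    have h0Q : 0 ∈ P2 σ := mem_union_left _ (mem_insert_self _ _)
    have hQ1 : 1 ≤ (P2 σ).card := card_pos.2 ⟨0, h0Q⟩
    have hσM : ∀ a ∈ σ, a ≤ M := by
      intro a ha
      rw [hσ, mem_insert, mem_insert] at ha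
      rcases ha with ha | ha | ha
      · omega
      · omega
      · have := (mem_Ioo.1 (hu.1 ha)).2
        omega
    have hQx : ∀ q ∈ P2 σ, q ≤ x := by
      intro q hq
      unfold P2 at hq
      rw [mem_union, mem_image] at hq
      rcases hq with hq | ⟨a, ha, haq⟩
      · have := hσM q hq
        omega
      · have := hσM a ha
        omega
    have hκ := one_le_kQ z (P2 σ)
    by_cases hcc : 1 ≤ cc σ
    · rw [if_pos hcc]
      have h3 := g2 (P2 σ) hQx hQ1 hQc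
      have h4 : ∑ v ∈ Bx d H, |∑ n ∈ Icc 1 x, w s n * (TT L v n σ - RT z v n σ)| ≤
          L ^ cc σ * ∑ v ∈ Bx d H, ∑ n ∈ Icc 1 x, (FQ L v n (P2 σ) + RQ z v n (P2 σ)) := by
        rw [mul_sum]
        apply sum_le_sum
        intro v _
        rw [mul_sum]
        refine (abs_sum_le_sum_abs _ _).trans ?_
        apply sum_le_sum
        intro n _
        rw [abs_mul, TT_eq, RT_eq]
        have h5 := FQ_nonneg hL0.le v n (P2 σ)
        have h6 := RQ_nonneg z v n (P2 σ)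
        have h7 : Cz z ^ cc σ ≤ L ^ cc σ := pow_le_pow_left₀ (by linarith) hCzL _
        have h8 : 0 ≤ Cz z ^ cc σ := by positivity
        calc |w s n| * |L ^ cc σ * FQ L v n (P2 σ) - Cz z ^ cc σ * RQ z v n (P2 σ)| ≤
              1 * (L ^ cc σ * FQ L v n (P2 σ) + Cz z ^ cc σ * RQ z v n (P2 σ)) := by
              apply mul_le_mul (hw s n) _ (abs_nonneg _) zero_le_one
              rw [abs_le]
              have h9 : 0 ≤ L ^ cc σ * FQ L v n (P2 σ) := by positivity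
              have h10 : 0 ≤ Cz z ^ cc σ * RQ z v n (P2 σ) := by positivity
              constructor <;> linarith
          _ ≤ 1 * (L ^ cc σ * FQ L v n (P2 σ) + L ^ cc σ * RQ z v n (P2 σ)) := by gcongr
          _ = _ := by ring
      have h5 : kQ z (P2 σ) ≤ Cz z ^ K0 := (kQ_le z _).trans (pow_le_pow_right₀ hCz hQc)
      have h6 : 0 ≤ ε1 * kQ z (P2 σ) * x * N := by positivity
      calc _ ≤ L ^ cc σ * (5 * kQ z (P2 σ) * x * N) := h4.trans (mul_le_mul_of_nonneg_left h3 (by positivity))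
        _ ≤ L ^ cc σ * (5 * Cz z ^ K0 * x * N) := by gcongr
        _ ≤ _ := by linarith
    · rw [if_neg hcc, zero_mul, add_zero]
      have hcc0 : cc σ = 0 := by omega
      have h3 := g1 (P2 σ) hQx hQ1 hQc (w s) (hw s)
      refine le_trans (le_of_eq ?_) h3
      apply sum_congr rfl
      intro v _
      congr 1
      apply sum_congr rfl
      intro n _
      rw [TT_eq, RT_eq, hcc0, pow_zero, pow_zero, one_mul, one_mul]
  rw [sum_comm]
  calc ∑ s ∈ Ioo 0 (M + 1), ∑ v ∈ Bx d H, ∑ u ∈ powersetCard j (Ioo 0 s),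
      |∑ n ∈ Icc 1 x, w s n * (TT L v n (insert 0 (insert s u)) - RT z v n (insert 0 (insert s u)))|
      = ∑ s ∈ Ioo 0 (M + 1), ∑ u ∈ powersetCard j (Ioo 0 s), ∑ v ∈ Bx d H,
      |∑ n ∈ Icc 1 x, w s n * (TT L v n (insert 0 (insert s u)) - RT z v n (insert 0 (insert s u)))| := by
        apply sum_congr rfl
        intro s _
        rw [sum_comm]
    _ ≤ ∑ s ∈ Ioo 0 (M + 1), ∑ u ∈ powersetCard j (Ioo 0 s), (ε1 * kQ z (P2 (insert 0 (insert s u))) * x * N +
      (if 1 ≤ cc (insert 0 (insert s u)) then L ^ cc (insert 0 (insert s u)) else 0) * (5 * Cz z ^ K0 * x * N)) :=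
        sum_le_sum fun s hs => sum_le_sum fun u hu => hone s hs u hu
    _ = ∑ u ∈ powersetCard (j + 1) (Ioo 0 (M + 1)), (ε1 * kQ z (P2 (insert 0 u)) * x * N +
      (if 1 ≤ cc (insert 0 u) then L ^ cc (insert 0 u) else 0) * (5 * Cz z ^ K0 * x * N)) := by
        rw [dec]
    _ = (∑ u ∈ powersetCard (j + 1) (Ioo 0 (M + 1)), kQ z (P2 (insert 0 u))) * (ε1 * x * N) +
        (∑ u ∈ powersetCard (j + 1) (Ioo 0 (M + 1)), if 1 ≤ cc (insert 0 u) then L ^ cc (insert 0 u) else 0) *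
          (5 * Cz z ^ K0 * x * N) := by
        rw [sum_add_distrib, sum_mul, sum_mul]
        congr 1
        apply sum_congr rfl
        intro u _
        ring
    _ ≤ (C ^ (J + 2) * M ^ (j + 1)) * (ε1 * x * N) + (((j + 1 : ℕ) : ℝ) * ((J + 2 : ℕ) * M) ^ (j + 1) * L / M) *
          (5 * Cz z ^ K0 * x * N) := by
        have h1 := hC z M hM1 (j + 1) (by omega) (M + 1) le_rfl
        have h2 := (XY (J + 2) M L hL1 hLM' (j + 1) (by omega) (M + 1) le_rfl).2
        rw [← le_div_iff₀ hM0] at h2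
        have h3 : C ^ (j + 1 + 1) ≤ C ^ (J + 2) := pow_le_pow_right₀ hC1 (by omega)
        gcongr
        exact h1.trans (mul_le_mul_of_nonneg_right h3 (by positivity))
    _ ≤ ε / 2 * M ^ (j + 1) * x * N + ε / 2 * M ^ (j + 1) * x * N := by
        apply add_le_add
        · rw [hε1]
          apply le_of_eq
          field_simp
        · have h1 : (((j + 1 : ℕ) : ℝ) * ((J + 2 : ℕ) * M) ^ (j + 1) * L / M) * (5 * Cz z ^ K0) ≤ ε / 2 * M ^ (j + 1) := by
            have h2 : (((j + 1 : ℕ) : ℝ)) ≤ J + 1 := by exact_mod_cast (by omega : j + 1 ≤ J + 1)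
            have h3 : (((J + 2 : ℕ) : ℝ)) ^ (j + 1) ≤ ((J : ℝ) + 2) ^ (J + 1) := by
              push_cast
              apply pow_le_pow_right₀ _ (by omega)
              have : (0 : ℝ) ≤ J := Nat.cast_nonneg _
              linarith
            have h4 : L * L / M ≤ 1 := by
              rw [div_le_one hM0]
              nlinarith
            calc (((j + 1 : ℕ) : ℝ) * ((J + 2 : ℕ) * M) ^ (j + 1) * L / M) * (5 * Cz z ^ K0) =
                  ((j + 1 : ℕ) : ℝ) * (((J + 2 : ℕ) : ℝ) ^ (j + 1)) * M ^ (j + 1) * 5 * (L * Cz z ^ K0 / M) := by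
                  rw [mul_pow]; ring
              _ ≤ (J + 1) * ((J : ℝ) + 2) ^ (J + 1) * M ^ (j + 1) * 5 * (L * (δ * L) / M) := by gcongr
              _ = (J + 1) * ((J : ℝ) + 2) ^ (J + 1) * M ^ (j + 1) * 5 * δ * (L * L / M) := by ring
              _ ≤ (J + 1) * ((J : ℝ) + 2) ^ (J + 1) * M ^ (j + 1) * 5 * δ * 1 := by gcongr
              _ = ε / 2 * M ^ (j + 1) := by
                  rw [hδ]
                  field_simp
                  ring
          calc _ = ((((j + 1 : ℕ) : ℝ) * ((J + 2 : ℕ) * M) ^ (j + 1) * L / M) * (5 * Cz z ^ K0)) * (x * N) := by ring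
            _ ≤ (ε / 2 * M ^ (j + 1)) * (x * N) := mul_le_mul_of_nonneg_right h1 (by positivity)
            _ = _ := by ring
    _ = _ := by ring

end Pool.Agent.Helper82K9.PV
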