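import Mathlib

set_option autoImplicit false

/-! Inclusion and exclusion with weights; sums of periodic functions. -/

namespace Pool.Agent.Helper82K9.PV

open Finset

/-- the elementary symmetric sums -/
noncomputable def es (y : ℕ → ℝ) (A : Finset ℕ) (j : ℕ) : ℝ := ∑ u ∈ powersetCard j A, ∏ m ∈ u, y m

lemma es_zero (y : ℕ → ℝ) (A : Finset ℕ) : es y A 0 = 1 := by unfold es; simp

lemma es_nonneg (y : ℕ → ℝ) (hy : ∀ m, 0 ≤ y m) (A : Finset ℕ) (j : ℕ) : 0 ≤ es y A j :=
  sum_nonneg fun _ _ => prod_nonneg fun m _ => hy m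

lemma es_empty (y : ℕ → ℝ) (j : ℕ) : es y ∅ (j + 1) = 0 := by
  unfold es
  have h2 : powersetCard (j + 1) (∅ : Finset ℕ) = ∅ := by
    rw [powersetCard_eq_empty, card_empty]
    omega
  rw [h2, sum_empty]

lemma es_insert (y : ℕ → ℝ) (A : Finset ℕ) (m : ℕ) (hm : m ∉ A) (j : ℕ) :
    es y (insert m A) (j + 1) = es y A (j + 1) + y m * es y A j := by
  unfold es
  rw [powersetCard_succ_insert hm, sum_union, sum_image, mul_sum]
  · congr 1
    apply sum_congr rfl
    intro u hu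
    rw [prod_insert]
    exact fun h => hm ((mem_powersetCard.1 hu).1 h)
  · intro a ha b hb hab
    have ha' : m ∉ a := fun h => hm ((mem_powersetCard.1 (mem_coe.1 ha)).1 h)
    have hb' : m ∉ b := fun h => hm ((mem_powersetCard.1 (mem_coe.1 hb)).1 h)
    rw [← erase_insert ha', ← erase_insert hb', hab]
  · rw [disjoint_left]
    intro a ha hb
    rw [mem_image] at hb
    obtain ⟨b, _, rfl⟩ := hb
    exact hm ((mem_powersetCard.1 ha).1 (mem_insert_self _ _))

lemma bonf (y : ℕ → ℝ) (hy0 : ∀ m, 0 ≤ y m) (hy1 : ∀ m, y m ≤ 1) (A : Finset ℕ) : ∀ J : ℕ,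
    0 ≤ (-1 : ℝ) ^ J * (∑ j ∈ range (J + 1), (-1 : ℝ) ^ j * es y A j - ∏ m ∈ A, (1 - y m)) := by
  induction A using Finset.induction_on with
  | empty =>
    intro J
    rw [sum_range_succ', pow_zero, one_mul, es_zero, prod_empty]
    rw [sum_eq_zero (fun j _ => by rw [es_empty, mul_zero])]
    simp
  | insert m A hm ih =>
    intro J
    have hP0 : 0 ≤ ∏ m ∈ A, (1 - y m) := prod_nonneg fun m _ => by have := hy1 m; linarith
    cases J with
    | zero =>
      rw [zero_add, sum_range_one, pow_zero, one_mul, one_mul, es_zero]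
      have : ∏ a ∈ insert m A, (1 - y a) ≤ 1 := prod_le_one (fun a _ => by have := hy1 a; linarith)
        (fun a _ => by have := hy0 a; linarith)
      linarith
    | succ J =>
      have h1 := ih (J + 1)
      have h2 := ih J
      have e1 : ∑ j ∈ range (J + 1 + 1), (-1 : ℝ) ^ j * es y (insert m A) j =
          ∑ j ∈ range (J + 1 + 1), (-1 : ℝ) ^ j * es y A j - y m * ∑ j ∈ range (J + 1), (-1 : ℝ) ^ j * es y A j := by
        rw [sum_range_succ', sum_range_succ' (fun j => (-1 : ℝ) ^ j * es y A j), es_zero, es_zero, mul_sum]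
        have e2 : ∀ j ∈ range (J + 1), (-1 : ℝ) ^ (j + 1) * es y (insert m A) (j + 1) =
            (-1 : ℝ) ^ (j + 1) * es y A (j + 1) - y m * ((-1 : ℝ) ^ j * es y A j) := by
          intro j _
          rw [es_insert y A m hm]
          ring
        rw [sum_congr rfl e2, sum_sub_distrib]
        ring
      rw [e1, prod_insert hm]
      have e3 : (-1 : ℝ) ^ (J + 1) * (∑ j ∈ range (J + 1 + 1), (-1 : ℝ) ^ j * es y A j -
          y m * ∑ j ∈ range (J + 1), (-1 : ℝ) ^ j * es y A j - (1 - y m) * ∏ m ∈ A, (1 - y m)) =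
          (-1 : ℝ) ^ (J + 1) * (∑ j ∈ range (J + 1 + 1), (-1 : ℝ) ^ j * es y A j - ∏ m ∈ A, (1 - y m)) +
          y m * ((-1 : ℝ) ^ J * (∑ j ∈ range (J + 1), (-1 : ℝ) ^ j * es y A j - ∏ m ∈ A, (1 - y m))) := by
        ring
      rw [e3]
      have := mul_nonneg (hy0 m) h2
      linarith

lemma bonf_odd (y : ℕ → ℝ) (hy0 : ∀ m, 0 ≤ y m) (hy1 : ∀ m, y m ≤ 1) (A : Finset ℕ) (i : ℕ) :
    ∑ j ∈ range (2 * i + 2), (-1 : ℝ) ^ j * es y A j ≤ ∏ m ∈ A, (1 - y m) := by
  have := bonf y hy0 hy1 A (2 * i + 1)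
  have e1 : (-1 : ℝ) ^ (2 * i + 1) = -1 := by rw [pow_succ, pow_mul]; norm_num
  rw [e1] at this
  linarith

lemma bonf_even (y : ℕ → ℝ) (hy0 : ∀ m, 0 ≤ y m) (hy1 : ∀ m, y m ≤ 1) (A : Finset ℕ) (i : ℕ) :
    ∏ m ∈ A, (1 - y m) - es y A (2 * i + 2) ≤ ∑ j ∈ range (2 * i + 2), (-1 : ℝ) ^ j * es y A j := by
  have := bonf y hy0 hy1 A (2 * i + 2)
  have e1 : (-1 : ℝ) ^ (2 * i + 2) = 1 := by rw [pow_succ, pow_succ, pow_mul]; norm_num
  rw [sum_range_succ, e1, one_mul, one_mul] at this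
  linarith

lemma bern (S t : ℝ) (hS : 0 ≤ S) (ht : 0 ≤ t) (j : ℕ) : S ^ (j + 1) + (j + 1) * S ^ j * t ≤ (t + S) ^ (j + 1) := by
  induction j with
  | zero => simp; linarith
  | succ j ih =>
    have h1 : (t + S) * (S ^ (j + 1) + (j + 1) * S ^ j * t) ≤ (t + S) * (t + S) ^ (j + 1) :=
      mul_le_mul_of_nonneg_left ih (by linarith)
    have h2 : 0 ≤ (j + 1) * S ^ j * t ^ 2 := by positivity
    calc S ^ (j + 1 + 1) + ((j + 1 : ℕ) + 1) * S ^ (j + 1) * t ≤ (t + S) * (S ^ (j + 1) + (j + 1) * S ^ j * t) := by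
          push_cast
          have : (t + S) * (S ^ (j + 1) + (j + 1) * S ^ j * t) =
            S ^ (j + 1 + 1) + ((j : ℝ) + 1 + 1) * S ^ (j + 1) * t + (j + 1) * S ^ j * t ^ 2 := by ring
          linarith
      _ ≤ _ := by rw [pow_succ' (t + S) (j + 1)]; exact h1

lemma es_le (y : ℕ → ℝ) (hy0 : ∀ m, 0 ≤ y m) (A : Finset ℕ) : ∀ j : ℕ, es y A j ≤ (∑ m ∈ A, y m) ^ j / (j.factorial : ℝ) := by
  induction A using Finset.induction_on with
  | empty =>
    intro j
    cases j with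
    | zero => rw [es_zero]; simp
    | succ j => rw [es_empty]; positivity
  | insert m A hm ih =>
    intro j
    cases j with
    | zero => rw [es_zero]; simp
    | succ j =>
      rw [es_insert y A m hm, sum_insert hm]
      have h1 := ih (j + 1)
      have h2 := ih j
      set S := ∑ m ∈ A, y m with hS
      have hS0 : 0 ≤ S := sum_nonneg fun m _ => hy0 m
      have hf : (0 : ℝ) < (j.factorial : ℝ) := by exact_mod_cast j.factorial_pos
      have hf1 : ((j + 1).factorial : ℝ) = (j + 1) * (j.factorial : ℝ) := by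
        rw [Nat.factorial_succ]; push_cast; ring
      have h3 : S ^ (j + 1) + (j + 1) * S ^ j * y m ≤ (y m + S) ^ (j + 1) := bern S (y m) hS0 (hy0 m) j
      calc es y A (j + 1) + y m * es y A j ≤ S ^ (j + 1) / ((j + 1).factorial : ℝ) + y m * (S ^ j / (j.factorial : ℝ)) := by
            have := mul_le_mul_of_nonneg_left h2 (hy0 m)
            linarith
        _ = (S ^ (j + 1) + (j + 1) * S ^ j * y m) / ((j + 1).factorial : ℝ) := by
            rw [hf1]
            field_simp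
        _ ≤ _ := by gcongr

/-- the telescoping sum -/
lemma tele (y : ℕ → ℝ) (M : ℕ) :
    ∑ s ∈ Ioo 0 (M + 1), y s * ∏ m ∈ Ioo 0 s, (1 - y m) = 1 - ∏ m ∈ Ioo 0 (M + 1), (1 - y m) := by
  induction M with
  | zero =>
    have : Ioo 0 (0 + 1) = (∅ : Finset ℕ) := by
      rw [eq_empty_iff_forall_notMem]
      intro q hq
      rw [mem_Ioo] at hq
      omega
    rw [this]; simp
  | succ M ih =>
    have e1 : Ioo 0 (M + 1 + 1) = insert (M + 1) (Ioo 0 (M + 1)) := by
      ext q
      rw [mem_insert, mem_Ioo, mem_Ioo]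
      omega
    have h1 : M + 1 ∉ Ioo 0 (M + 1) := by rw [mem_Ioo]; omega
    rw [e1, sum_insert h1, prod_insert h1, ih]
    ring

/-- `1 - Σ y ≤ Π (1 - y)` -/
lemma one_sub_sum (y : ℕ → ℝ) (hy0 : ∀ m, 0 ≤ y m) (hy1 : ∀ m, y m ≤ 1) (A : Finset ℕ) :
    1 - ∑ m ∈ A, y m ≤ ∏ m ∈ A, (1 - y m) := by
  have := bonf_odd y hy0 hy1 A 0
  rw [mul_zero, zero_add, sum_range_succ, sum_range_one, pow_zero, pow_one, one_mul, es_zero] at this
  have e1 : es y A 1 = ∑ m ∈ A, y m := by
    unfold es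
    rw [powersetCard_one, sum_map]
    simp
  rw [e1] at this
  linarith

lemma per_sum (g : ℕ → ℝ) (W : ℕ) (hg : ∀ n, g (n + W) = g n) (k : ℕ) :
    ∑ s ∈ Ioc k (k + W), g s = ∑ s ∈ range W, g s := by
  induction k with
  | zero =>
    have e1 : Ioc 0 (0 + W) = (range W).image (fun s => s + 1) := by
      ext s
      rw [mem_Ioc, mem_image]
      constructor
      · intro h
        exact ⟨s - 1, mem_range.2 (by omega), by omega⟩
      · rintro ⟨a, ha, rfl⟩
        rw [mem_range] at ha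
        omega
    rw [e1, sum_image (fun a _ b _ hab => by simpa using hab)]
    have h1 := sum_range_succ' g W
    have h2 := sum_range_succ g W
    have h3 := hg 0
    rw [zero_add] at h3
    linarith
  | succ k ih =>
    rcases Nat.eq_zero_or_pos W with h0 | h0
    · subst h0; simp
    rw [← ih]
    have e1 : Ioc k (k + W) = insert (k + 1) (Ioc (k + 1) (k + W)) := by
      ext s
      rw [mem_insert, mem_Ioc, mem_Ioc]
      omega
    have e2 : Ioc (k + 1) (k + 1 + W) = insert (k + 1 + W) (Ioc (k + 1) (k + W)) := by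
      ext s
      rw [mem_insert, mem_Ioc, mem_Ioc]
      omega
    rw [e1, e2, sum_insert, sum_insert, hg]
    · rw [mem_Ioc]; omega
    · rw [mem_Ioc]; omega

lemma per_mul (g : ℕ → ℝ) (W : ℕ) (hg : ∀ n, g (n + W) = g n) (k K : ℕ) :
    ∑ s ∈ Ioc k (k + K * W), g s = K * ∑ s ∈ range W, g s := by
  induction K with
  | zero => simp
  | succ K ih =>
    have e1 : Ioc k (k + (K + 1) * W) = Ioc k (k + K * W) ∪ Ioc (k + K * W) (k + K * W + W) := by
      rw [Ioc_union_Ioc_eq_Ioc (by omega) (by omega)]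
      congr 1
      ring
    rw [e1, sum_union, ih, per_sum g W hg]
    · push_cast; ring
    · exact Ioc_disjoint_Ioc_of_le le_rfl

end Pool.Agent.Helper82K9.PV
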