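import Pool.Agent.Helper82K9.PV.PV5

set_option autoImplicit false

/-! The model of the gaps. -/

namespace Pool.Agent.Helper82K9.PV

open Finset

/-- the next element in a given class, for the model -/
lemma model_lower (ρ : ℕ → ℝ) (hρ0 : ∀ n, 0 ≤ ρ n) (W q b : ℕ) (hW : 0 < W) (hqW : q ∣ W) (hper : ∀ n, ρ (n + W) = ρ n)
    (Λ S Sb : ℝ) (hΛ : 0 < Λ) (hρ1 : ∀ n, ρ n ≤ Λ) (hS : ∑ n ∈ range W, ρ n = W * S)
    (hSb : ∑ n ∈ range W, (if n % q = b then ρ n else 0) = W * Sb) (hS0 : 0 < S) (M n : ℕ) :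
    Sb / S * (1 - W * S / Λ - Real.exp (-(M * S / Λ))) ≤
      ∑ s ∈ Ioo 0 (M + 1), (if (n + s) % q = b then 1 else 0) * (ρ (n + s) / Λ) * ∏ m ∈ Ioo 0 s, (1 - ρ (n + m) / Λ) := by
  have hWr : (0 : ℝ) < W := by exact_mod_cast hW
  set y : ℕ → ℝ := fun m => ρ (n + m) / Λ with hy
  have hy0 : ∀ m, 0 ≤ y m := fun m => div_nonneg (hρ0 _) hΛ.le
  have hy1 : ∀ m, y m ≤ 1 := fun m => by
    rw [hy]; simp only
    rw [div_le_one hΛ]; exact hρ1 _
  set yb : ℕ → ℝ := fun m => (if (n + m) % q = b then 1 else 0) * (ρ (n + m) / Λ) with hyb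
  have hyb0 : ∀ m, 0 ≤ yb m := fun m => mul_nonneg (by split_ifs <;> norm_num) (hy0 m)
  -- sums over periods
  have hperg : ∀ m, ρ (n + (m + W)) = ρ (n + m) := fun m => by rw [← add_assoc]; exact hper _
  have hsumρ : ∀ k K : ℕ, ∑ s ∈ Ioc k (k + K * W), y s = K * (W * S / Λ) := by
    intro k K
    have h1 := per_mul ρ W hper (n + k) K
    rw [hS] at h1
    have h2 : ∑ s ∈ Ioc k (k + K * W), ρ (n + s) = ∑ s ∈ Ioc (n + k) (n + k + K * W), ρ s := by
      rw [add_assoc n k, ← image_add_left_Ioc, sum_image (fun a _ b _ hab => by simpa using hab)]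
    rw [hy]
    simp only
    rw [← sum_div, h2, h1]
    ring
  have hperb : ∀ m, (if (m + W) % q = b then ρ (m + W) else 0) = (if m % q = b then ρ m else 0) := by
    intro m
    obtain ⟨c, hc⟩ := hqW
    have : (m + W) % q = m % q := by rw [hc, Nat.add_mul_mod_self_left]
    rw [this, hper]
  have hsumb : ∀ k : ℕ, ∑ s ∈ Ioc k (k + W), yb s = W * Sb / Λ := by
    intro k
    have h1 := per_sum (fun m => if m % q = b then ρ m else 0) W hperb (n + k)
    rw [hSb] at h1
    have h2 : ∑ s ∈ Ioc k (k + W), (if (n + s) % q = b then ρ (n + s) else 0) =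
        ∑ s ∈ Ioc (n + k) (n + k + W), (if s % q = b then ρ s else 0) := by
      rw [add_assoc n k, ← image_add_left_Ioc, sum_image (fun a _ b _ hab => by simpa using hab)]
    have h3 : ∀ s ∈ Ioc k (k + W), yb s = (if (n + s) % q = b then ρ (n + s) else 0) / Λ := by
      intro s _
      rw [hyb]
      simp only
      split_ifs <;> ring
    rw [sum_congr rfl h3, ← sum_div, h2, h1]
  -- the products
  set V : ℕ → ℝ := fun r => ∏ m ∈ Ioc 0 r, (1 - y m) with hV
  have hVIoo : ∀ s, 0 < s → ∏ m ∈ Ioo 0 s, (1 - y m) = V (s - 1) := by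
    intro s hs
    rw [hV]
    apply prod_congr _ (fun _ _ => rfl)
    ext m
    rw [mem_Ioo, mem_Ioc]
    omega
  have hV0 : ∀ r, 0 ≤ V r := fun r => prod_nonneg fun m _ => by have := hy1 m; linarith
  have hVle1 : ∀ r, V r ≤ 1 := fun r => prod_le_one (fun m _ => by have := hy1 m; linarith)
    (fun m _ => by have := hy0 m; linarith)
  have hsplit : ∀ r r' : ℕ, r ≤ r' → V r' = V r * ∏ m ∈ Ioc r r', (1 - y m) := by
    intro r r' hrr
    rw [hV]
    simp only
    rw [← prod_union (Ioc_disjoint_Ioc_of_le le_rfl), Ioc_union_Ioc_eq_Ioc (by omega) hrr]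
  have hanti : ∀ r r' : ℕ, r ≤ r' → V r' ≤ V r := by
    intro r r' hrr
    rw [hsplit r r' hrr]
    apply mul_le_of_le_one_right (hV0 r)
    exact prod_le_one (fun m _ => by have := hy1 m; linarith) (fun m _ => by have := hy0 m; linarith)
  have hstep : ∀ r : ℕ, V r - V (r + W) ≤ V r * (W * S / Λ) := by
    intro r
    rw [hsplit r (r + W) (by omega)]
    have h1 := one_sub_sum y hy0 hy1 (Ioc r (r + W))
    have h2 := hsumρ r 1
    rw [one_mul, Nat.cast_one, one_mul] at h2
    rw [h2] at h1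
    have h3 := mul_le_mul_of_nonneg_left h1 (hV0 r)
    linarith
  have hexp : ∀ K : ℕ, V (K * W) ≤ Real.exp (-(K * (W * S / Λ))) := by
    intro K
    have h1 := hsumρ 0 K
    rw [zero_add] at h1
    rw [← h1, ← sum_neg_distrib, Real.exp_sum]
    apply Finset.prod_le_prod
    · intro m _
      have := hy1 m
      linarith
    · intro m _
      have := Real.add_one_le_exp (-y m)
      linarith
  -- blocks
  have hSb0 : 0 ≤ Sb := by
    have h1 : 0 ≤ ∑ n ∈ range W, (if n % q = b then ρ n else 0) := sum_nonneg fun m _ => by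
      split_ifs
      · exact hρ0 m
      · exact le_rfl
    rw [hSb] at h1
    by_contra h
    push Not at h
    have := mul_neg_of_pos_of_neg hWr h
    linarith
  have hblock : ∀ K : ℕ, Sb / S * (V W - V ((K + 1) * W)) ≤
      ∑ s ∈ Ioo 0 (K * W + 1), yb s * ∏ m ∈ Ioo 0 s, (1 - y m) := by
    intro K
    induction K with
    | zero =>
      rw [zero_add, one_mul, sub_self, mul_zero]
      exact sum_nonneg fun s _ => mul_nonneg (hyb0 s) (prod_nonneg fun m _ => by have := hy1 m; linarith)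
    | succ K ih =>
      have e1 : Ioo 0 ((K + 1) * W + 1) = Ioo 0 (K * W + 1) ∪ Ioc (K * W) (K * W + W) := by
        ext s
        rw [mem_union, mem_Ioo, mem_Ioo, mem_Ioc]
        have : (K + 1) * W = K * W + W := by ring
        omega
      have hdis : Disjoint (Ioo 0 (K * W + 1)) (Ioc (K * W) (K * W + W)) := by
        rw [disjoint_left]
        intro s h1 h2
        rw [mem_Ioo] at h1
        rw [mem_Ioc] at h2
        omega
      rw [e1, sum_union hdis]
      have h1 : V ((K + 1) * W) * (W * Sb / Λ) ≤ ∑ s ∈ Ioc (K * W) (K * W + W), yb s * ∏ m ∈ Ioo 0 s, (1 - y m) := by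
        rw [← hsumb (K * W), mul_sum]
        apply sum_le_sum
        intro s hs
        rw [mem_Ioc] at hs
        rw [hVIoo s (by omega), mul_comm]
        apply mul_le_mul_of_nonneg_left _ (hyb0 s)
        apply hanti
        have : (K + 1) * W = K * W + W := by ring
        omega
      have h2 := hstep ((K + 1) * W)
      have e2 : (K + 1) * W + W = (K + 1 + 1) * W := by ring
      rw [e2] at h2
      have h3 : Sb / S * (V ((K + 1) * W) - V ((K + 1 + 1) * W)) ≤ V ((K + 1) * W) * (W * Sb / Λ) := by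
        calc Sb / S * (V ((K + 1) * W) - V ((K + 1 + 1) * W)) ≤ Sb / S * (V ((K + 1) * W) * (W * S / Λ)) :=
              mul_le_mul_of_nonneg_left h2 (by positivity)
          _ = _ := by field_simp
      have e3 : Sb / S * (V W - V ((K + 1 + 1) * W)) = Sb / S * (V W - V ((K + 1) * W)) +
          Sb / S * (V ((K + 1) * W) - V ((K + 1 + 1) * W)) := by ring
      rw [e3]
      linarith
  set K := M / W with hK
  have hKM : K * W ≤ M := Nat.div_mul_le_self _ _
  have hKM2 : M < (K + 1) * W := by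
    have := Nat.lt_mul_div_succ M hW
    rw [← hK] at this
    linarith [mul_comm W (K + 1)]
  have h1 := hblock K
  have h2 : ∑ s ∈ Ioo 0 (K * W + 1), yb s * ∏ m ∈ Ioo 0 s, (1 - y m) ≤
      ∑ s ∈ Ioo 0 (M + 1), yb s * ∏ m ∈ Ioo 0 s, (1 - y m) := by
    apply sum_le_sum_of_subset_of_nonneg
    · apply Ioo_subset_Ioo_right
      omega
    · intro s _ _
      exact mul_nonneg (hyb0 s) (prod_nonneg fun m _ => by have := hy1 m; linarith)
  have h3 : 1 - W * S / Λ ≤ V W := by
    have h4 := one_sub_sum y hy0 hy1 (Ioc 0 W)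
    have h5 := hsumρ 0 1
    rw [one_mul, Nat.cast_one, one_mul, zero_add] at h5
    rw [h5] at h4
    exact h4
  have h4 : V ((K + 1) * W) ≤ Real.exp (-(M * S / Λ)) := by
    refine (hexp (K + 1)).trans ?_
    apply Real.exp_le_exp.2
    rw [neg_le_neg_iff]
    have h5 : (M : ℝ) ≤ ((K + 1 : ℕ) : ℝ) * W := by exact_mod_cast hKM2.le
    calc M * S / Λ ≤ (((K + 1 : ℕ) : ℝ) * W) * S / Λ := by gcongr
      _ = _ := by ring
  refine le_trans ?_ (h1.trans h2)
  apply mul_le_mul_of_nonneg_left _ (by positivity)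
  linarith

/-- the sum of the model over an interval -/
lemma model_sum (ρ : ℕ → ℝ) (hρ0 : ∀ n, 0 ≤ ρ n) (W : ℕ) (hW : 0 < W) (hper : ∀ n, ρ (n + W) = ρ n)
    (S : ℝ) (hS : ∑ n ∈ range W, ρ n = W * S) (k M : ℕ) :
    ∑ s ∈ Ioc k (k + M), ρ s ≤ (M + W) * S ∧ (M - W) * S ≤ ∑ s ∈ Ioc k (k + M), ρ s := by
  have hWr : (0 : ℝ) < W := by exact_mod_cast hW
  have hS0 : 0 ≤ S := by
    have h1 : 0 ≤ ∑ n ∈ range W, ρ n := sum_nonneg fun m _ => hρ0 m
    rw [hS] at h1
    by_contra h
    push Not at h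
    have := mul_neg_of_pos_of_neg hWr h
    linarith
  set K := M / W with hK
  have hKM : K * W ≤ M := Nat.div_mul_le_self _ _
  have hKM2 : M < (K + 1) * W := by
    have := Nat.lt_mul_div_succ M hW
    rw [← hK] at this
    linarith [mul_comm W (K + 1)]
  have h1 := per_mul ρ W hper k K
  have h2 := per_mul ρ W hper k (K + 1)
  rw [hS] at h1 h2
  have h3 : ((K : ℕ) : ℝ) * W ≤ M := by exact_mod_cast hKM
  have h4 : (M : ℝ) ≤ ((K + 1 : ℕ) : ℝ) * W := by exact_mod_cast hKM2.le
  constructor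
  · calc ∑ s ∈ Ioc k (k + M), ρ s ≤ ∑ s ∈ Ioc k (k + (K + 1) * W), ρ s := by
          apply sum_le_sum_of_subset_of_nonneg
          · apply Ioc_subset_Ioc_right
            omega
          · intro s _ _
            exact hρ0 s
      _ = ((K + 1 : ℕ) : ℝ) * (W * S) := h2
      _ = (K * W + W) * S := by push_cast; ring
      _ ≤ _ := by gcongr
  · calc (M - W) * S ≤ (K * W) * S := by
          apply mul_le_mul_of_nonneg_right _ hS0
          push_cast at h4
          linarith
      _ = ∑ s ∈ Ioc k (k + K * W), ρ s := by rw [h1]; ring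
      _ ≤ _ := by
          apply sum_le_sum_of_subset_of_nonneg
          · apply Ioc_subset_Ioc_right
            omega
          · intro s _ _
            exact hρ0 s

end Pool.Agent.Helper82K9.PV
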