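import Pool.Agent.Helper82K9.PV.PV6

set_option autoImplicit false

/-! The number of the elements in a class whose next element is in a class: a lower bound. -/

namespace Pool.Agent.Helper82K9.PV

open Finset

/-- the indicator of two classes -/
noncomputable def ww (q a b : ℕ) (s n : ℕ) : ℝ := if n % q = a ∧ (n + s) % q = b then 1 else 0

lemma ww_eq (q a b s n : ℕ) : ww q a b s n = (if n % q = a then 1 else 0) * (if (n + s) % q = b then 1 else 0) := by
  unfold ww
  by_cases h1 : n % q = a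
  · by_cases h2 : (n + s) % q = b
    · rw [if_pos ⟨h1, h2⟩, if_pos h1, if_pos h2, one_mul]
    · rw [if_neg (fun h => h2 h.2), if_neg h2, mul_zero]
  · rw [if_neg (fun h => h1 h.1), if_neg h1, zero_mul]

lemma ww_nonneg (q a b s n : ℕ) : 0 ≤ ww q a b s n := by unfold ww; split_ifs <;> norm_num

lemma ww_le (q a b s n : ℕ) : ww q a b s n ≤ 1 := by unfold ww; split_ifs <;> norm_num

open Classical in
/-- the number of the elements `n ≤ x` in the class `a` whose next element is in the class `b` -/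
noncomputable def nextC (T : ℕ → Prop) (q a b x : ℕ) : ℕ :=
  ((Icc 1 x).filter (fun n => n % q = a ∧ T n ∧ ∃ s, 0 < s ∧ T (n + s) ∧ (n + s) % q = b ∧ ∀ m, 0 < m → m < s → ¬ T (n + m))).card

open Classical in
/-- the indicator -/
noncomputable def ind (T : ℕ → Prop) (n : ℕ) : ℝ := if T n then 1 else 0

lemma ind_nonneg (T : ℕ → Prop) (n : ℕ) : 0 ≤ ind T n := by unfold ind; split_ifs <;> norm_num

lemma ind_le (T : ℕ → Prop) (n : ℕ) : ind T n ≤ 1 := by unfold ind; split_ifs <;> norm_num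

lemma lowerC (T : ℕ → Prop) (q a b x M I : ℕ) :
    ∑ n ∈ Icc 1 x, ∑ s ∈ Ioo 0 (M + 1), ww q a b s n * (ind T n * ind T (n + s) *
      ∑ j ∈ range (2 * I + 2), (-1 : ℝ) ^ j * es (fun m => ind T (n + m)) (Ioo 0 s) j) ≤ nextC T q a b x := by
  classical
  unfold nextC
  rw [card_filter]
  push_cast
  apply sum_le_sum
  intro n _
  have h1 : ∑ s ∈ Ioo 0 (M + 1), ww q a b s n * (ind T n * ind T (n + s) *
      ∑ j ∈ range (2 * I + 2), (-1 : ℝ) ^ j * es (fun m => ind T (n + m)) (Ioo 0 s) j) ≤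
      ∑ s ∈ Ioo 0 (M + 1), ww q a b s n * (ind T n * ind T (n + s) * ∏ m ∈ Ioo 0 s, (1 - ind T (n + m))) := by
    apply sum_le_sum
    intro s _
    apply mul_le_mul_of_nonneg_left _ (ww_nonneg _ _ _ _ _)
    apply mul_le_mul_of_nonneg_left _ (mul_nonneg (ind_nonneg _ _) (ind_nonneg _ _))
    exact bonf_odd (fun m => ind T (n + m)) (fun m => ind_nonneg _ _) (fun m => ind_le _ _) _ I
  refine h1.trans ?_
  have hP0 : ∀ s, 0 ≤ ∏ m ∈ Ioo 0 s, (1 - ind T (n + m)) := fun s => prod_nonneg fun m _ => by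
    have := ind_le T (n + m)
    linarith
  split_ifs with hc
  · calc ∑ s ∈ Ioo 0 (M + 1), ww q a b s n * (ind T n * ind T (n + s) * ∏ m ∈ Ioo 0 s, (1 - ind T (n + m))) ≤
          ∑ s ∈ Ioo 0 (M + 1), ind T (n + s) * ∏ m ∈ Ioo 0 s, (1 - ind T (n + m)) := by
          apply sum_le_sum
          intro s _
          have h2 : ind T n * ind T (n + s) ≤ ind T (n + s) := by
            calc _ ≤ 1 * ind T (n + s) := mul_le_mul_of_nonneg_right (ind_le _ _) (ind_nonneg _ _)
              _ = _ := one_mul _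
          have h3 := hP0 s
          have h4 := ind_nonneg T (n + s)
          have h5 := ind_nonneg T n
          calc _ ≤ 1 * (ind T n * ind T (n + s) * ∏ m ∈ Ioo 0 s, (1 - ind T (n + m))) :=
                mul_le_mul_of_nonneg_right (ww_le _ _ _ _ _) (by positivity)
            _ ≤ _ := by
                rw [one_mul]
                exact mul_le_mul_of_nonneg_right h2 h3
      _ = 1 - ∏ m ∈ Ioo 0 (M + 1), (1 - ind T (n + m)) := tele (fun m => ind T (n + m)) M
      _ ≤ 1 := by have := hP0 (M + 1); linarith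
  · apply le_of_eq
    apply sum_eq_zero
    intro s hs
    rw [mem_Ioo] at hs
    by_contra hne
    apply hc
    have h2 := left_ne_zero_of_mul hne
    have h3 := right_ne_zero_of_mul hne
    have h4 := right_ne_zero_of_mul h3
    have h5 := left_ne_zero_of_mul h3
    have h6 := left_ne_zero_of_mul h5
    have h7 := right_ne_zero_of_mul h5
    have g1 : n % q = a ∧ (n + s) % q = b := by
      by_contra h
      apply h2
      unfold ww
      rw [if_neg h]
    have g2 : T n := by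
      by_contra h
      apply h6
      unfold ind
      rw [if_neg h]
    have g3 : T (n + s) := by
      by_contra h
      apply h7
      unfold ind
      rw [if_neg h]
    refine ⟨g1.1, g2, s, hs.1, g3, g1.2, fun m hm1 hm2 hTm => ?_⟩
    apply h4
    apply prod_eq_zero (mem_Ioo.2 ⟨hm1, hm2⟩)
    unfold ind
    rw [if_pos hTm, sub_self]

/-- the products over a set of shifts -/
noncomputable def PP (r : ℕ → ℝ) (n : ℕ) (σ : Finset ℕ) : ℝ := ∏ t ∈ σ, r (n + t)

lemma PP_insert (r : ℕ → ℝ) (n s j : ℕ) (u : Finset ℕ) (hs : 0 < s) (hu : u ∈ powersetCard j (Ioo 0 s)) :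
    PP r n (insert 0 (insert s u)) = r n * (r (n + s) * ∏ m ∈ u, r (n + m)) := by
  unfold PP
  rw [mem_powersetCard] at hu
  have h1 : s ∉ u := fun h => by
    have := (mem_Ioo.1 (hu.1 h)).2
    omega
  have h0 : 0 ∉ insert s u := fun h => by
    rw [mem_insert] at h
    rcases h with h | h
    · omega
    · have := (mem_Ioo.1 (hu.1 h)).1
      omega
  rw [prod_insert h0, prod_insert h1, add_zero]

/-- the alternating sum as a sum over the sets of shifts -/
lemma alt_eq (r : ℕ → ℝ) (Λ : ℝ) (hΛ : 0 < Λ) (w : ℕ → ℕ → ℝ) (x M R : ℕ) :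
    ∑ n ∈ Icc 1 x, ∑ s ∈ Ioo 0 (M + 1), w s n * (r n * (r (n + s) / Λ) *
      ∑ j ∈ range R, (-1 : ℝ) ^ j * es (fun m => r (n + m) / Λ) (Ioo 0 s) j) =
    ∑ j ∈ range R, (-1 : ℝ) ^ j / Λ ^ (j + 1) * ∑ s ∈ Ioo 0 (M + 1), ∑ u ∈ powersetCard j (Ioo 0 s),
      ∑ n ∈ Icc 1 x, w s n * PP r n (insert 0 (insert s u)) := by
  have e1 : ∀ n ∈ Icc 1 x, ∀ s ∈ Ioo 0 (M + 1), w s n * (r n * (r (n + s) / Λ) *
      ∑ j ∈ range R, (-1 : ℝ) ^ j * es (fun m => r (n + m) / Λ) (Ioo 0 s) j) =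
      ∑ j ∈ range R, ∑ u ∈ powersetCard j (Ioo 0 s), (-1 : ℝ) ^ j / Λ ^ (j + 1) * (w s n * PP r n (insert 0 (insert s u))) := by
    intro n _ s hs
    rw [mul_sum, mul_sum]
    apply sum_congr rfl
    intro j _
    unfold es
    rw [mul_sum, mul_sum, mul_sum]
    apply sum_congr rfl
    intro u hu
    rw [PP_insert r n s j u (mem_Ioo.1 hs).1 hu, prod_div_distrib, prod_const, (mem_powersetCard.1 hu).2]
    field_simp
    ring
  rw [sum_congr rfl (fun n hn => sum_congr rfl (fun s hs => e1 n hn s hs))]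
  have e2 : ∑ n ∈ Icc 1 x, ∑ s ∈ Ioo 0 (M + 1), ∑ j ∈ range R, ∑ u ∈ powersetCard j (Ioo 0 s),
      (-1 : ℝ) ^ j / Λ ^ (j + 1) * (w s n * PP r n (insert 0 (insert s u))) =
      ∑ j ∈ range R, ∑ s ∈ Ioo 0 (M + 1), ∑ u ∈ powersetCard j (Ioo 0 s), ∑ n ∈ Icc 1 x,
      (-1 : ℝ) ^ j / Λ ^ (j + 1) * (w s n * PP r n (insert 0 (insert s u))) := by
    rw [sum_comm]
    rw [sum_congr rfl (fun s _ => sum_comm)]
    rw [sum_comm]
    apply sum_congr rfl
    intro j _
    apply sum_congr rfl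
    intro s _
    rw [sum_comm]
  rw [e2]
  apply sum_congr rfl
  intro j _
  rw [mul_sum]
  apply sum_congr rfl
  intro s _
  rw [mul_sum]
  apply sum_congr rfl
  intro u _
  rw [mul_sum]

/-- the deterministic lower bound -/
theorem det_lower (T : ℕ → Prop) (ρ : ℕ → ℝ) (hρ0 : ∀ n, 0 ≤ ρ n) (W q a b : ℕ) (hW : 0 < W) (hqW : q ∣ W)
    (hper : ∀ n, ρ (n + W) = ρ n)
    (Λ S Sb : ℝ) (hΛ : 0 < Λ) (hρ1 : ∀ n, ρ n ≤ Λ) (hS : ∑ n ∈ range W, ρ n = W * S)
    (hSb : ∑ n ∈ range W, (if n % q = b then ρ n else 0) = W * Sb) (hS0 : 0 < S) (x M I : ℕ) (E : ℕ → ℝ)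
    (hE : ∀ j ∈ range (2 * I + 2), ∑ s ∈ Ioo 0 (M + 1), ∑ u ∈ powersetCard j (Ioo 0 s),
      |∑ n ∈ Icc 1 x, ww q a b s n * (PP (fun k => Λ * ind T k) n (insert 0 (insert s u)) -
        PP ρ n (insert 0 (insert s u)))| ≤ E j) :
    Sb / S * (1 - W * S / Λ - Real.exp (-(M * S / Λ))) * ∑ n ∈ Icc 1 x, (if n % q = a then ρ n else 0) -
      ((M + W) * S / Λ) ^ (2 * I + 3) / ((2 * I + 2).factorial : ℝ) * ∑ n ∈ Icc 1 x, ρ n -
      ∑ j ∈ range (2 * I + 2), E j / Λ ^ (j + 1) ≤ Λ * nextC T q a b x := by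
  set r : ℕ → ℝ := fun k => Λ * ind T k with hr
  have h1 := lowerC T q a b x M I
  -- the left side as a sum over the sets of shifts
  have e1 : Λ * ∑ n ∈ Icc 1 x, ∑ s ∈ Ioo 0 (M + 1), ww q a b s n * (ind T n * ind T (n + s) *
      ∑ j ∈ range (2 * I + 2), (-1 : ℝ) ^ j * es (fun m => ind T (n + m)) (Ioo 0 s) j) =
      ∑ n ∈ Icc 1 x, ∑ s ∈ Ioo 0 (M + 1), ww q a b s n * (r n * (r (n + s) / Λ) *
      ∑ j ∈ range (2 * I + 2), (-1 : ℝ) ^ j * es (fun m => r (n + m) / Λ) (Ioo 0 s) j) := by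
    rw [mul_sum]
    apply sum_congr rfl
    intro n _
    rw [mul_sum]
    apply sum_congr rfl
    intro s _
    have h2 : (fun m => r (n + m) / Λ) = (fun m => ind T (n + m)) := by
      funext m
      rw [hr]
      field_simp
    rw [h2, hr]
    field_simp
  have e2 := alt_eq r Λ hΛ (ww q a b) x M (2 * I + 2)
  have e3 := alt_eq ρ Λ hΛ (ww q a b) x M (2 * I + 2)
  have h2 : |∑ j ∈ range (2 * I + 2), (-1 : ℝ) ^ j / Λ ^ (j + 1) * ∑ s ∈ Ioo 0 (M + 1), ∑ u ∈ powersetCard j (Ioo 0 s),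
      ∑ n ∈ Icc 1 x, ww q a b s n * PP r n (insert 0 (insert s u)) -
      ∑ j ∈ range (2 * I + 2), (-1 : ℝ) ^ j / Λ ^ (j + 1) * ∑ s ∈ Ioo 0 (M + 1), ∑ u ∈ powersetCard j (Ioo 0 s),
      ∑ n ∈ Icc 1 x, ww q a b s n * PP ρ n (insert 0 (insert s u))| ≤ ∑ j ∈ range (2 * I + 2), E j / Λ ^ (j + 1) := by
    rw [← sum_sub_distrib]
    refine (abs_sum_le_sum_abs _ _).trans ?_
    apply sum_le_sum
    intro j hj
    rw [← mul_sub, abs_mul, abs_div, abs_pow, abs_neg, abs_one, one_pow, abs_of_pos (by positivity : 0 < Λ ^ (j + 1)),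
      one_div, inv_mul_eq_div]
    apply div_le_div_of_nonneg_right _ (by positivity)
    refine le_trans ?_ (hE j hj)
    rw [← sum_sub_distrib]
    refine (abs_sum_le_sum_abs _ _).trans ?_
    apply sum_le_sum
    intro s _
    rw [← sum_sub_distrib]
    refine (abs_sum_le_sum_abs _ _).trans ?_
    apply sum_le_sum
    intro u _
    rw [← sum_sub_distrib]
    apply le_of_eq
    congr 1
    apply sum_congr rfl
    intro n _
    ring
  rw [← e2, ← e3, ← e1] at h2
  -- the model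
  set Θ := (M + W) * S / Λ with hΘ
  have hΘ0 : 0 ≤ Θ := by positivity
  have h3 : ∀ n ∈ Icc 1 x, (if n % q = a then ρ n else 0) * (Sb / S * (1 - W * S / Λ - Real.exp (-(M * S / Λ)))) -
      Θ ^ (2 * I + 3) / ((2 * I + 2).factorial : ℝ) * ρ n ≤
      ∑ s ∈ Ioo 0 (M + 1), ww q a b s n * (ρ n * (ρ (n + s) / Λ) *
      ∑ j ∈ range (2 * I + 2), (-1 : ℝ) ^ j * es (fun m => ρ (n + m) / Λ) (Ioo 0 s) j) := by
    intro n _
    have hy0 : ∀ m, 0 ≤ ρ (n + m) / Λ := fun m => div_nonneg (hρ0 _) hΛ.le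
    have hy1 : ∀ m, ρ (n + m) / Λ ≤ 1 := fun m => by rw [div_le_one hΛ]; exact hρ1 _
    have hsumM : ∑ m ∈ Ioo 0 (M + 1), ρ (n + m) / Λ ≤ Θ := by
      rw [← sum_div, hΘ]
      apply div_le_div_of_nonneg_right _ hΛ.le
      have h4 := (model_sum ρ hρ0 W hW hper S hS n M).1
      refine le_trans (le_of_eq ?_) h4
      have h5 : Ioc n (n + M) = (Ioo 0 (M + 1)).image (fun m => n + m) := by
        ext k
        rw [mem_Ioc, mem_image]
        constructor
        · intro h
          exact ⟨k - n, mem_Ioo.2 ⟨by omega, by omega⟩, by omega⟩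
        · rintro ⟨m, hm, rfl⟩
          rw [mem_Ioo] at hm
          omega
      rw [h5, sum_image (fun a _ b _ hab => by simpa using hab)]
    have hes : ∀ s ∈ Ioo 0 (M + 1), es (fun m => ρ (n + m) / Λ) (Ioo 0 s) (2 * I + 2) ≤
        Θ ^ (2 * I + 2) / ((2 * I + 2).factorial : ℝ) := by
      intro s hs
      rw [mem_Ioo] at hs
      refine (es_le _ hy0 _ _).trans ?_
      apply div_le_div_of_nonneg_right _ (by positivity)
      apply pow_le_pow_left₀ (sum_nonneg fun m _ => hy0 m)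
      refine le_trans ?_ hsumM
      apply sum_le_sum_of_subset_of_nonneg
      · apply Ioo_subset_Ioo_right
        omega
      · intro m _ _
        exact hy0 m
    calc (if n % q = a then ρ n else 0) * (Sb / S * (1 - W * S / Λ - Real.exp (-(M * S / Λ)))) -
          Θ ^ (2 * I + 3) / ((2 * I + 2).factorial : ℝ) * ρ n ≤
          (if n % q = a then ρ n else 0) * ∑ s ∈ Ioo 0 (M + 1), (if (n + s) % q = b then 1 else 0) * (ρ (n + s) / Λ) *
            ∏ m ∈ Ioo 0 s, (1 - ρ (n + m) / Λ) -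
          ∑ s ∈ Ioo 0 (M + 1), ρ n * ((ρ (n + s) / Λ) * (Θ ^ (2 * I + 2) / ((2 * I + 2).factorial : ℝ))) := by
          apply sub_le_sub
          · apply mul_le_mul_of_nonneg_left
            · exact model_lower ρ hρ0 W q b hW hqW hper Λ S Sb hΛ hρ1 hS hSb hS0 M n
            · split_ifs
              · exact hρ0 n
              · exact le_rfl
          · rw [← mul_sum, ← sum_mul]
            calc ρ n * ((∑ s ∈ Ioo 0 (M + 1), ρ (n + s) / Λ) * (Θ ^ (2 * I + 2) / ((2 * I + 2).factorial : ℝ))) ≤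
                  ρ n * (Θ * (Θ ^ (2 * I + 2) / ((2 * I + 2).factorial : ℝ))) := by
                  apply mul_le_mul_of_nonneg_left _ (hρ0 n)
                  exact mul_le_mul_of_nonneg_right hsumM (by positivity)
              _ = _ := by ring
      _ = ∑ s ∈ Ioo 0 (M + 1), ((if n % q = a then ρ n else 0) * ((if (n + s) % q = b then 1 else 0) * (ρ (n + s) / Λ) *
            ∏ m ∈ Ioo 0 s, (1 - ρ (n + m) / Λ)) -
            ρ n * ((ρ (n + s) / Λ) * (Θ ^ (2 * I + 2) / ((2 * I + 2).factorial : ℝ)))) := by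
          rw [sum_sub_distrib, mul_sum]
      _ ≤ _ := by
          apply sum_le_sum
          intro s hs
          have h4 := bonf_even (fun m => ρ (n + m) / Λ) hy0 hy1 (Ioo 0 s) I
          have h5 := hes s hs
          have h6 := hρ0 n
          have h7 := hy0 s
          have h8 : 0 ≤ es (fun m => ρ (n + m) / Λ) (Ioo 0 s) (2 * I + 2) := es_nonneg _ hy0 _ _
          rw [ww_eq]
          have e9 : (if n % q = a then ρ n else 0) = (if n % q = a then (1 : ℝ) else 0) * ρ n := by split_ifs <;> ring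
          rw [e9]
          set c1 : ℝ := if n % q = a then (1 : ℝ) else 0 with hc1
          set c2 : ℝ := if (n + s) % q = b then (1 : ℝ) else 0 with hc2
          have hc10 : 0 ≤ c1 := by rw [hc1]; split_ifs <;> norm_num
          have hc11 : c1 ≤ 1 := by rw [hc1]; split_ifs <;> norm_num
          have hc20 : 0 ≤ c2 := by rw [hc2]; split_ifs <;> norm_num
          have hc21 : c2 ≤ 1 := by rw [hc2]; split_ifs <;> norm_num
          set P := ∏ m ∈ Ioo 0 s, (1 - ρ (n + m) / Λ) with hP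
          set F := es (fun m => ρ (n + m) / Λ) (Ioo 0 s) (2 * I + 2) with hF
          set B := ∑ j ∈ range (2 * I + 2), (-1 : ℝ) ^ j * es (fun m => ρ (n + m) / Λ) (Ioo 0 s) j with hB
          set G := Θ ^ (2 * I + 2) / ((2 * I + 2).factorial : ℝ) with hG
          have h9 : c1 * c2 * (ρ n * (ρ (n + s) / Λ) * (P - F)) ≤ c1 * c2 * (ρ n * (ρ (n + s) / Λ) * B) := by
            apply mul_le_mul_of_nonneg_left _ (by positivity)
            apply mul_le_mul_of_nonneg_left h4 (by positivity)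
          have h10 : c1 * c2 * (ρ n * (ρ (n + s) / Λ) * F) ≤ ρ n * ((ρ (n + s) / Λ) * G) := by
            have h11 : c1 * c2 ≤ 1 := mul_le_one₀ hc11 hc20 hc21
            calc c1 * c2 * (ρ n * (ρ (n + s) / Λ) * F) ≤ 1 * (ρ n * (ρ (n + s) / Λ) * G) := by gcongr
              _ = _ := by ring
          have e10 : c1 * ρ n * (c2 * (ρ (n + s) / Λ) * P) = c1 * c2 * (ρ n * (ρ (n + s) / Λ) * (P - F)) +
              c1 * c2 * (ρ n * (ρ (n + s) / Λ) * F) := by ring
          rw [e10]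
          linarith
  have h4 := sum_le_sum h3
  rw [sum_sub_distrib, ← sum_mul, ← mul_sum] at h4
  have h5 := mul_le_mul_of_nonneg_left h1 hΛ.le
  have h6 := (abs_le.1 h2).1
  rw [mul_comm (∑ n ∈ Icc 1 x, if n % q = a then ρ n else 0)] at h4
  linarith

end Pool.Agent.Helper82K9.PV
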