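import Pool.Agent.Helper82K9.PV.PV7

set_option autoImplicit false

/-! The number of the elements in a class whose next element is in a class. -/

namespace Pool.Agent.Helper82K9.PV

open Finset

open Classical in
/-- the number of the elements `n ≤ x` in the class `a` -/
noncomputable def allC (T : ℕ → Prop) (q a x : ℕ) : ℕ := ((Icc 1 x).filter (fun n => n % q = a ∧ T n)).card

/-- the mean value of a function over the class `c` -/
noncomputable def dens (ρ : ℕ → ℝ) (W q c : ℕ) : ℝ := (∑ n ∈ range W, if n % q = c then ρ n else 0) / W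

/-- the mean value of a function -/
noncomputable def dens0 (ρ : ℕ → ℝ) (W : ℕ) : ℝ := (∑ n ∈ range W, ρ n) / W

lemma sum_next (T : ℕ → Prop) (q a x : ℕ) : ∑ b ∈ range q, nextC T q a b x ≤ allC T q a x := by
  classical
  unfold nextC allC
  rw [← card_biUnion]
  · apply card_le_card
    intro n hn
    rw [mem_biUnion] at hn
    obtain ⟨b, _, hb⟩ := hn
    rw [mem_filter] at hb ⊢
    exact ⟨hb.1, hb.2.1, hb.2.2.1⟩
  · intro b _ b' _ hbb
    rw [Function.onFun, disjoint_left]
    intro n h1 h2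
    rw [mem_filter] at h1 h2
    obtain ⟨_, _, _, s, hs1, hs2, hs3, hs4⟩ := h1
    obtain ⟨_, _, _, s', hs1', hs2', hs3', hs4'⟩ := h2
    rcases lt_trichotomy s s' with h | h | h
    · exact hs4' s hs1 h hs2
    · apply hbb
      rw [← hs3, ← hs3', h]
    · exact hs4 s' hs1' h hs2'

lemma dens_sum (ρ : ℕ → ℝ) (W q : ℕ) (hq : 1 ≤ q) : ∑ c ∈ range q, dens ρ W q c = dens0 ρ W := by
  unfold dens dens0
  rw [← sum_div, sum_comm]
  congr 1
  apply sum_congr rfl
  intro n _
  rw [sum_ite_eq]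
  rw [if_pos (mem_range.2 (Nat.mod_lt _ hq))]

lemma dens_nonneg (ρ : ℕ → ℝ) (hρ0 : ∀ n, 0 ≤ ρ n) (W q c : ℕ) : 0 ≤ dens ρ W q c := by
  unfold dens
  apply div_nonneg _ (Nat.cast_nonneg _)
  apply sum_nonneg
  intro n _
  split_ifs
  · exact hρ0 n
  · exact le_rfl

theorem fin_v (T : ℕ → Prop) (ρ : ℕ → ℝ) (hρ0 : ∀ n, 0 ≤ ρ n) (W q : ℕ) (hq : 1 ≤ q) (hW : 0 < W) (hqW : q ∣ W)
    (hper : ∀ n, ρ (n + W) = ρ n) (Λ : ℝ) (hΛ : 0 < Λ) (hρ1 : ∀ n, ρ n ≤ Λ) (x M I : ℕ) (e1 e2 S0 : ℝ)
    (he1 : 0 < e1) (he11 : e1 ≤ 1) (hS01 : 1 ≤ S0) (hSS0 : dens0 ρ W ≤ S0)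
    (hE : ∀ a < q, ∀ b < q, ∀ j ∈ range (2 * I + 2), ∑ s ∈ Ioo 0 (M + 1), ∑ u ∈ powersetCard j (Ioo 0 s),
      |∑ n ∈ Icc 1 x, ww q a b s n * (PP (fun k => Λ * ind T k) n (insert 0 (insert s u)) -
        PP ρ n (insert 0 (insert s u)))| ≤ e2 * (M : ℝ) ^ (j + 1) * x)
    (hA : ∀ a < q, |Λ * allC T q a x - ∑ n ∈ Icc 1 x, (if n % q = a then ρ n else 0)| ≤ e1 / 2 * x)
    (n1 : W * S0 / Λ ≤ e1 / (16 * S0)) (n2 : S0 * W ≤ e1 / 16 * x) (n3 : Real.exp (-(M * e1 / Λ)) ≤ e1 / (16 * S0))
    (n4 : ((M + W) * S0 / Λ) ^ (2 * I + 3) / ((2 * I + 2).factorial : ℝ) * (2 * S0) ≤ e1 / 4)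
    (n5 : ∑ j ∈ range (2 * I + 2), e2 * (M : ℝ) ^ (j + 1) / Λ ^ (j + 1) ≤ e1 / 4) :
    ∀ a < q, ∀ b < q, |Λ * nextC T q a b x - dens ρ W q a * dens ρ W q b / dens0 ρ W * x| ≤ (q + 1) * e1 * x ∧
      |Λ * allC T q a x - dens ρ W q a * x| ≤ e1 * x := by
  have hWr : (0 : ℝ) < W := by exact_mod_cast hW
  have hx0 : (0 : ℝ) ≤ x := Nat.cast_nonneg _
  set S := dens0 ρ W with hS
  have hS' : ∑ n ∈ range W, ρ n = W * S := by
    rw [hS]; unfold dens0; field_simp
  have hd' : ∀ c, ∑ n ∈ range W, (if n % q = c then ρ n else 0) = W * dens ρ W q c := by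
    intro c
    unfold dens; field_simp
  have hd0 : ∀ c, 0 ≤ dens ρ W q c := dens_nonneg ρ hρ0 W q
  have hdsum := dens_sum ρ W q hq
  rw [← hS] at hdsum
  have hdle : ∀ c < q, dens ρ W q c ≤ S := by
    intro c hc
    rw [← hdsum]
    exact single_le_sum (f := fun c => dens ρ W q c) (fun c _ => hd0 c) (mem_range.2 hc)
  have hS00 : 0 ≤ S := by
    rw [← hdsum]
    exact sum_nonneg fun c _ => hd0 c
  -- the sums over the classes
  have hperc : ∀ c m, (if (m + W) % q = c then ρ (m + W) else 0) = (if m % q = c then ρ m else 0) := by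
    intro c m
    obtain ⟨k, hk⟩ := hqW
    have : (m + W) % q = m % q := by rw [hk, Nat.add_mul_mod_self_left]
    rw [this, hper]
  have hIcc : Icc 1 x = Ioc 0 (0 + x) := by
    ext n
    rw [mem_Icc, mem_Ioc]
    omega
  have hAa : ∀ a, ∑ n ∈ Icc 1 x, (if n % q = a then ρ n else 0) ≤ (x + W) * dens ρ W q a ∧
      (x - W) * dens ρ W q a ≤ ∑ n ∈ Icc 1 x, (if n % q = a then ρ n else 0) := by
    intro a
    rw [hIcc]
    exact model_sum (fun n => if n % q = a then ρ n else 0) (fun n => by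
      split_ifs
      · exact hρ0 n
      · exact le_rfl) W hW (hperc a) _ (hd' a) 0 x
  have hAtot : ∑ n ∈ Icc 1 x, ρ n ≤ (x + W) * S := by
    rw [hIcc]
    exact (model_sum ρ hρ0 W hW hper S hS' 0 x).1
  have hWx : (W : ℝ) ≤ e1 / 16 * x := by
    calc (W : ℝ) ≤ S0 * W := le_mul_of_one_le_left hWr.le hS01
      _ ≤ _ := n2
  have hWx' : (W : ℝ) ≤ x := by nlinarith
  -- all elements
  have hall : ∀ a < q, |Λ * allC T q a x - dens ρ W q a * x| ≤ e1 * x := by
    intro a ha
    have h1 := hA a ha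
    obtain ⟨h2, h3⟩ := hAa a
    have h4 : W * dens ρ W q a ≤ e1 / 16 * x := by
      calc W * dens ρ W q a ≤ W * S0 := by
            apply mul_le_mul_of_nonneg_left ((hdle a ha).trans hSS0) hWr.le
        _ = S0 * W := by ring
        _ ≤ _ := n2
    rw [abs_le] at h1 ⊢
    have h5 : 0 ≤ e1 * x := by positivity
    constructor <;> nlinarith
  -- lower bounds
  have hlow : ∀ a < q, ∀ b < q, dens ρ W q a * dens ρ W q b / S * x - e1 * x ≤ Λ * nextC T q a b x := by
    intro a ha b hb
    have hab : dens ρ W q a * dens ρ W q b / S ≤ dens ρ W q a := by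
      rcases hS00.eq_or_lt with h | h
      · rw [← h, div_zero]; exact hd0 a
      · rw [div_le_iff₀ h]
        exact mul_le_mul_of_nonneg_left (hdle b hb) (hd0 a)
    rcases lt_or_ge S e1 with hSe | hSe
    · have h1 : 0 ≤ Λ * nextC T q a b x := by positivity
      have h2 : dens ρ W q a * dens ρ W q b / S * x ≤ e1 * x := by
        apply mul_le_mul_of_nonneg_right _ hx0
        exact hab.trans ((hdle a ha).trans hSe.le)
      linarith
    · have hSpos : 0 < S := lt_of_lt_of_le he1 hSe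
      have h1 := det_lower T ρ hρ0 W q a b hW hqW hper Λ S (dens ρ W q b) hΛ hρ1 hS' (hd' b) hSpos x M I
        (fun j => e2 * (M : ℝ) ^ (j + 1) * x) (hE a ha b hb)
      refine le_trans ?_ h1
      set η := W * S / Λ + Real.exp (-(M * S / Λ)) with hη
      have hη0 : 0 ≤ η := by positivity
      have hη1 : η ≤ e1 / (8 * S0) := by
        have h2 : W * S / Λ ≤ e1 / (16 * S0) := by
          refine le_trans ?_ n1
          gcongr
        have h3 : Real.exp (-(M * S / Λ)) ≤ e1 / (16 * S0) := by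
          refine le_trans ?_ n3
          apply Real.exp_le_exp.2
          rw [neg_le_neg_iff]
          gcongr
        calc η ≤ e1 / (16 * S0) + e1 / (16 * S0) := add_le_add h2 h3
          _ = _ := by field_simp; ring
      have hηS : S0 * η ≤ e1 / 8 := by
        calc S0 * η ≤ S0 * (e1 / (8 * S0)) := mul_le_mul_of_nonneg_left hη1 (by linarith)
          _ = _ := by field_simp
      have hη2 : η ≤ 1 := by nlinarith
      have e3 : (1 : ℝ) - W * S / Λ - Real.exp (-(M * S / Λ)) = 1 - η := by rw [hη]; ring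
      rw [e3]
      have g1 : dens ρ W q a * dens ρ W q b / S * x - e1 / 4 * x ≤
          dens ρ W q b / S * (1 - η) * ∑ n ∈ Icc 1 x, (if n % q = a then ρ n else 0) := by
        have h2 := (hAa a).2
        have h3 : 0 ≤ dens ρ W q b / S * (1 - η) := by
          have := hd0 b
          have h4 : 0 ≤ 1 - η := by linarith
          positivity
        refine le_trans ?_ (mul_le_mul_of_nonneg_left h2 h3)
        set X := dens ρ W q a * dens ρ W q b / S with hX
        have hX0 : 0 ≤ X := by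
          have := hd0 a
          have := hd0 b
          positivity
        have hXS : X ≤ S0 := hab.trans ((hdle a ha).trans hSS0)
        have e4 : dens ρ W q b / S * (1 - η) * ((x - W) * dens ρ W q a) = X * (1 - η) * (x - W) := by
          rw [hX]; ring
        rw [e4]
        have h5 : X * η ≤ e1 / 8 := (mul_le_mul_of_nonneg_right hXS hη0).trans hηS
        have h6 : X * W ≤ e1 / 16 * x := (mul_le_mul_of_nonneg_right hXS hWr.le).trans n2
        have h7 : X * η * (x - W) ≤ e1 / 8 * x := by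
          calc X * η * (x - W) ≤ X * η * x := by
                apply mul_le_mul_of_nonneg_left _ (by positivity)
                linarith
            _ ≤ _ := mul_le_mul_of_nonneg_right h5 hx0
        have h8 : 0 ≤ e1 * x := by positivity
        nlinarith
      have g2 : ((M + W) * S / Λ) ^ (2 * I + 3) / ((2 * I + 2).factorial : ℝ) * ∑ n ∈ Icc 1 x, ρ n ≤ e1 / 4 * x := by
        have h2 : ∑ n ∈ Icc 1 x, ρ n ≤ 2 * S0 * x := by
          refine hAtot.trans ?_
          calc (x + W) * S ≤ (x + x) * S0 := by gcongr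
            _ = _ := by ring
        have h0 : 0 ≤ ∑ n ∈ Icc 1 x, ρ n := sum_nonneg fun n _ => hρ0 n
        calc _ ≤ ((M + W) * S0 / Λ) ^ (2 * I + 3) / ((2 * I + 2).factorial : ℝ) * (2 * S0 * x) := by
              gcongr
          _ = (((M + W) * S0 / Λ) ^ (2 * I + 3) / ((2 * I + 2).factorial : ℝ) * (2 * S0)) * x := by ring
          _ ≤ _ := mul_le_mul_of_nonneg_right n4 hx0
      have g3 : ∑ j ∈ range (2 * I + 2), e2 * (M : ℝ) ^ (j + 1) * x / Λ ^ (j + 1) ≤ e1 / 4 * x := by
        have h2 : ∑ j ∈ range (2 * I + 2), e2 * (M : ℝ) ^ (j + 1) * x / Λ ^ (j + 1) =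
            (∑ j ∈ range (2 * I + 2), e2 * (M : ℝ) ^ (j + 1) / Λ ^ (j + 1)) * x := by
          rw [sum_mul]
          apply sum_congr rfl
          intro j _
          ring
        rw [h2]
        exact mul_le_mul_of_nonneg_right n5 hx0
      have h8 : 0 ≤ e1 * x := by positivity
      linarith
  -- upper bounds
  intro a ha b hb
  refine ⟨?_, hall a ha⟩
  rw [abs_le]
  have hqr : (1 : ℝ) ≤ q := by exact_mod_cast hq
  have he1x : 0 ≤ e1 * x := by positivity
  constructor
  · have h1 := hlow a ha b hb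
    nlinarith
  · have h1 : ∑ b' ∈ range q, Λ * (nextC T q a b' x : ℝ) ≤ Λ * allC T q a x := by
      rw [← mul_sum]
      apply mul_le_mul_of_nonneg_left _ hΛ.le
      exact_mod_cast sum_next T q a x
    rw [← add_sum_erase _ _ (mem_range.2 hb)] at h1
    have h2 : ∑ b' ∈ (range q).erase b, (dens ρ W q a * dens ρ W q b' / S * x - e1 * x) ≤
        ∑ b' ∈ (range q).erase b, Λ * (nextC T q a b' x : ℝ) := by
      apply sum_le_sum
      intro b' hb'
      exact hlow a ha b' (mem_range.1 (mem_of_mem_erase hb'))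
    have h3 : ∑ b' ∈ (range q).erase b, (dens ρ W q a * dens ρ W q b' / S * x - e1 * x) =
        (∑ b' ∈ range q, dens ρ W q a * dens ρ W q b' / S * x) - dens ρ W q a * dens ρ W q b / S * x - (q - 1) * (e1 * x) := by
      rw [sum_sub_distrib, sum_const, card_erase_of_mem (mem_range.2 hb), card_range, nsmul_eq_mul,
        ← add_sum_erase _ _ (mem_range.2 hb), Nat.cast_sub hq]
      push_cast
      ring
    have h4 : dens ρ W q a * x ≤ (∑ b' ∈ range q, dens ρ W q a * dens ρ W q b' / S * x) ∨ dens ρ W q a = 0 := by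
      rcases hS00.eq_or_lt with h | h
      · right
        have := hdle a ha
        rw [← h] at this
        exact le_antisymm this (hd0 a)
      · left
        have h5 : ∑ b' ∈ range q, dens ρ W q a * dens ρ W q b' / S * x = dens ρ W q a * x := by
          rw [← sum_mul, ← sum_div, ← mul_sum, hdsum]
          field_simp
        rw [h5]
    have h5 := (abs_le.1 (hall a ha)).2
    rcases h4 with h4 | h4
    · linarith
    · have h6 : (0 : ℝ) ≤ ∑ b' ∈ (range q).erase b, Λ * (nextC T q a b' x : ℝ) := sum_nonneg fun b' _ => by positivity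
      rw [h4, zero_mul, sub_zero] at h5
      rw [h4, zero_mul, zero_div, zero_mul, sub_zero]
      nlinarith

end Pool.Agent.Helper82K9.PV
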