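import Pool.Agent.Helper82K9.PV.PV4
import Pool.Agent.Helper82K9.PV.PV8

set_option autoImplicit false

/-! The residues of consecutive elements for almost all polynomials. -/

namespace Pool.Agent.Helper82K9.PV

open Finset Filter Pool.Agent.Helper82K9.PR

/-- the pairs of primes -/
def Tw {d : ℕ} (v : Fin (d + 1) → ℤ) (n : ℕ) : Prop := (pv v n).natAbs.Prime ∧ (pv v (n + 2)).natAbs.Prime

/-- the model of the pairs -/
noncomputable def rh {d : ℕ} (z : ℕ) (v : Fin (d + 1) → ℤ) (n : ℕ) : ℝ :=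
  MM (primorial z) (pv v n) * MM (primorial z) (pv v (n + 2))

lemma om_Tw {d : ℕ} (L : ℝ) (v : Fin (d + 1) → ℤ) (n : ℕ) :
    om L (pv v n) * om L (pv v (n + 2)) = L ^ 2 * ind (Tw v) n := by
  unfold om ind Tw
  by_cases h1 : (pv v n).natAbs.Prime
  · by_cases h2 : (pv v (n + 2)).natAbs.Prime
    · rw [if_pos h1, if_pos h2, if_pos ⟨h1, h2⟩]; ring
    · have h3 : ¬ ((pv v n).natAbs.Prime ∧ (pv v (n + 2)).natAbs.Prime) := fun h => h2 h.2
      rw [if_neg h2, if_neg h3]; ring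
  · have h3 : ¬ ((pv v n).natAbs.Prime ∧ (pv v (n + 2)).natAbs.Prime) := fun h => h1 h.1
    rw [if_neg h1, if_neg h3]; ring

lemma TT_PP {d : ℕ} (L : ℝ) (v : Fin (d + 1) → ℤ) (n : ℕ) (σ : Finset ℕ) :
    TT L v n σ = PP (fun k => L ^ 2 * ind (Tw v) k) n σ := by
  unfold TT PP
  apply prod_congr rfl
  intro t _
  exact om_Tw L v (n + t)

lemma RT_PP {d : ℕ} (z : ℕ) (v : Fin (d + 1) → ℤ) (n : ℕ) (σ : Finset ℕ) : RT z v n σ = PP (rh z v) n σ := rfl

lemma rh_nonneg {d : ℕ} (z : ℕ) (v : Fin (d + 1) → ℤ) (n : ℕ) : 0 ≤ rh z v n := mul_nonneg (MM_nonneg _ _) (MM_nonneg _ _)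

lemma rh_le {d : ℕ} (z : ℕ) (v : Fin (d + 1) → ℤ) (n : ℕ) : rh z v n ≤ Cz z ^ 2 := by
  unfold rh
  rw [pow_two]
  exact mul_le_mul (MM_le_Cz _ _) (MM_le_Cz _ _) (MM_nonneg _ _) (zero_le_one.trans (Cz_ge z))

lemma MM_pv_per {d : ℕ} (W : ℕ) (v : Fin (d + 1) → ℤ) (n k : ℕ) : MM W (pv v (n + k * W)) = MM W (pv v n) := by
  have h1 : (pv v (n + k * W)) ≡ (pv v n) [ZMOD W] := by
    unfold pv
    apply Int.ModEq.sum
    intro i _
    apply Int.ModEq.mul_left
    apply Int.ModEq.pow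
    have : n + k * W ≡ n [MOD W] := by
      unfold Nat.ModEq
      rw [Nat.add_mul_mod_self_right]
    exact (Int.natCast_modEq_iff).2 this
  obtain ⟨c, hc⟩ := h1.symm.dvd
  have h2 : pv v (n + k * W) = pv v n + c * W := by linarith
  rw [h2, MM_add]

lemma rh_per {d : ℕ} (z q : ℕ) (v : Fin (d + 1) → ℤ) (n : ℕ) : rh z v (n + q * primorial z) = rh z v n := by
  unfold rh
  rw [MM_pv_per, show n + q * primorial z + 2 = (n + 2) + q * primorial z by ring, MM_pv_per]

lemma allC_eq {d : ℕ} (L : ℝ) (v : Fin (d + 1) → ℤ) (q a x : ℕ) :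
    L ^ 2 * allC (Tw v) q a x = ∑ n ∈ Icc 1 x, (if n % q = a then 1 else 0) * FQ L v n {0, 2} := by
  classical
  unfold allC
  rw [card_filter]
  push_cast
  rw [mul_sum]
  apply sum_congr rfl
  intro n _
  have h1 : FQ L v n {0, 2} = L ^ 2 * ind (Tw v) n := by
    rw [← om_Tw]
    unfold FQ
    rw [prod_insert (by simp), prod_singleton]
    rfl
  rw [h1]
  unfold ind
  by_cases g1 : n % q = a
  · by_cases g2 : Tw v n
    · rw [if_pos ⟨g1, g2⟩, if_pos g1, if_pos g2]; ring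
    · rw [if_neg (fun h => g2 h.2), if_neg g2]; ring
  · rw [if_neg (fun h => g1 h.1), if_neg g1]; ring

lemma rh_RQ {d : ℕ} (z : ℕ) (v : Fin (d + 1) → ℤ) (n : ℕ) : RQ z v n {0, 2} = rh z v n := by
  unfold RQ rh
  rw [prod_insert (by simp), prod_singleton]
  rfl

open Classical in
theorem nextU (q : ℕ) (hq : 1 ≤ q) (ε : ℝ) (hε : 0 < ε) : ∃ D : ℕ, ∀ d : ℕ, D ≤ d → ∀ B0 : ℕ, ∃ A : ℕ, 3 ≤ A ∧
    ∀ H : ℕ, A ≤ H → ∀ x : ℕ, Real.log H ^ D ≤ x → (x : ℝ) ≤ Real.log H ^ B0 →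
    (((Bx d H).filter (fun v => ¬ ∀ a < q, ∀ b < q,
      |Real.log H ^ 2 * nextC (Tw v) q a b x - dens (rh (zH H) v) (q * primorial (zH H)) q a *
        dens (rh (zH H) v) (q * primorial (zH H)) q b / dens0 (rh (zH H) v) (q * primorial (zH H)) * x| ≤ ε * x ∧
      |Real.log H ^ 2 * allC (Tw v) q a x - dens (rh (zH H) v) (q * primorial (zH H)) q a * x| ≤ ε * x)).card : ℝ) ≤
      ε * (Bx d H).card := by
  have hqr : (1 : ℝ) ≤ q := by exact_mod_cast hq
  obtain ⟨C, hC1, hC⟩ := avgK 0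
  set ε1 := min ε 1 with hε1
  have hε10 : 0 < ε1 := lt_min hε one_pos
  have hε1ε : ε1 ≤ ε := min_le_left _ _
  have hε11 : ε1 ≤ 1 := min_le_right _ _
  set e1 := ε1 / (q + 1) with he1
  have he10 : 0 < e1 := by positivity
  have he1ε : (q + 1) * e1 = ε1 := by rw [he1]; field_simp
  have he11 : e1 ≤ ε1 := by
    rw [he1]
    apply div_le_self hε10.le
    linarith
  set S0 := 40 * C / ε1 with hS0
  have hS01 : 1 ≤ S0 := by
    rw [hS0, le_div_iff₀ hε10]
    linarith
  -- the length of the gaps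
  obtain ⟨lam, hlam1, hlam⟩ : ∃ lam : ℕ, 1 ≤ lam ∧ Real.exp (-(lam * e1)) ≤ e1 / (16 * S0) := by
    have h1 : Tendsto (fun n : ℕ => Real.exp (-((n : ℝ) * e1))) atTop (nhds 0) := by
      apply Real.tendsto_exp_neg_atTop_nhds_zero.comp
      exact tendsto_natCast_atTop_atTop.atTop_mul_const he10
    have h2 := h1.eventually (ge_mem_nhds (show (0 : ℝ) < e1 / (16 * S0) by positivity))
    obtain ⟨n, h3, h4⟩ := (h2.and (eventually_ge_atTop 1)).exists
    exact ⟨n, h4, h3⟩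
  set Θ : ℝ := (lam + 2) * S0 with hΘ
  have hΘ0 : 0 < Θ := by positivity
  obtain ⟨I, hI⟩ : ∃ I : ℕ, Θ ^ (2 * I + 3) / ((2 * I + 2).factorial : ℝ) * (2 * S0) ≤ e1 / 4 := by
    have h1 := FloorSemiring.tendsto_pow_div_factorial_atTop Θ
    have h2 := h1.eventually (ge_mem_nhds (show (0 : ℝ) < e1 / (8 * S0 * Θ) by positivity))
    obtain ⟨n0, hn0⟩ := h2.exists_forall_of_atTop
    refine ⟨n0, ?_⟩
    have h3 := hn0 (2 * n0 + 2) (by omega)
    calc Θ ^ (2 * n0 + 3) / ((2 * n0 + 2).factorial : ℝ) * (2 * S0) =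
          (Θ ^ (2 * n0 + 2) / ((2 * n0 + 2).factorial : ℝ)) * (Θ * (2 * S0)) := by ring
      _ ≤ (e1 / (8 * S0 * Θ)) * (Θ * (2 * S0)) := mul_le_mul_of_nonneg_right h3 (by positivity)
      _ = e1 / 4 := by field_simp; ring
  set e2 := e1 / (4 * ((2 * I + 2) * ((lam : ℝ) + 1) ^ (2 * I + 2))) with he2
  have he20 : 0 < e2 := by positivity
  set e3 := e2 * (ε1 / (4 * (q ^ 2 * (2 * I + 2)))) with he3
  have he30 : 0 < e3 := by positivity
  set e4 := e1 / 2 * (ε1 / (4 * q)) / C with he4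
  have he40 : 0 < e4 := by positivity
  refine ⟨8 * I + 12, fun d hd B0 => ?_⟩
  obtain ⟨A1, hA13, hA1⟩ := DJ (2 * I + 1) d B0 (by omega) e3 he30
  obtain ⟨A2, hA23, hA2⟩ := absQ 2 d B0 (by omega) e4 he40
  obtain ⟨A3, hA33, hA3⟩ := meanQ 2 d B0 (by omega)
  set δ := e1 / (16 * S0 ^ 2 * q) with hδ
  have hδ0 : 0 < δ := by positivity
  obtain ⟨A4, hA43, hA4⟩ := zH_facts d B0 2 δ hδ0
  have hlog : Tendsto (fun n : ℕ => Real.log n) atTop atTop := Real.tendsto_log_atTop.comp tendsto_natCast_atTop_atTop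
  obtain ⟨A5, hA5⟩ := (hlog.eventually_ge_atTop ((lam : ℝ) + q + 5 + 16 * S0 ^ 2 * q / e1)).exists_forall_of_atTop
  refine ⟨max (max (max A1 A2) (max A3 A4)) A5, (hA13.trans (le_max_left _ _)).trans ((le_max_left _ _).trans (le_max_left _ _)),
    fun H hH x hx hxB => ?_⟩
  have hH' : max (max A1 A2) (max A3 A4) ≤ H := (le_max_left _ _).trans hH
  have g1 := hA1 H (((le_max_left _ _).trans (le_max_left _ _)).trans hH')
  have g2 := hA2 H (((le_max_right _ _).trans (le_max_left _ _)).trans hH')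
  have g3 := hA3 H (((le_max_left _ _).trans (le_max_right _ _)).trans hH')
  obtain ⟨hL2, -, hprim, -, -, hCzK⟩ := hA4 H (((le_max_right _ _).trans (le_max_right _ _)).trans hH')
  have hLbig := hA5 H ((le_max_right _ _).trans hH)
  set z := zH H with hz
  set L := Real.log H with hLdef
  have hL1 : 1 ≤ L := by linarith
  have hL0 : 0 < L := by linarith
  have hlamr : (1 : ℝ) ≤ lam := by exact_mod_cast hlam1
  have hSq : 0 ≤ 16 * S0 ^ 2 * q / e1 := by positivity
  have hLlam : (lam : ℝ) + 5 ≤ L := by linarith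
  have hLq : (q : ℝ) ≤ L := by linarith
  have hLS : 16 * S0 ^ 2 * q / e1 ≤ L := by linarith
  rw [div_le_iff₀ he10] at hLS
  set Λ := L ^ 2 with hΛ
  have hΛ0 : 0 < Λ := by positivity
  have hΛ1 : 1 ≤ Λ := one_le_pow₀ hL1
  set W := q * primorial z with hW
  have hprim0 : 0 < primorial z := primorial_pos z
  have hW0 : 0 < W := Nat.mul_pos hq hprim0
  have hWL : (W : ℝ) ≤ q * L := by
    rw [hW]; push_cast
    exact mul_le_mul_of_nonneg_left hprim (by linarith)
  have hCz := Cz_ge z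
  have hW1 : (1 : ℝ) ≤ primorial z := by exact_mod_cast hprim0
  have hCzL : Cz z ≤ L := by
    unfold Cz
    refine le_trans (div_le_self (by positivity) ?_) hprim
    exact_mod_cast Nat.totient_pos.2 hprim0
  -- the length
  set M := ⌈(lam : ℝ) * Λ⌉₊ with hM
  have hMl : (lam : ℝ) * Λ ≤ M := Nat.le_ceil _
  have hMu : (M : ℝ) ≤ (lam + 1) * Λ := by
    have := (Nat.ceil_lt_add_one (by positivity : (0 : ℝ) ≤ (lam : ℝ) * Λ)).le
    rw [← hM] at this
    nlinarith
  have hLx5 : L ^ 5 ≤ x := by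
    refine le_trans ?_ hx
    exact pow_le_pow_right₀ hL1 (by omega)
  have hL3x : L ^ 3 ≤ x := (pow_le_pow_right₀ hL1 (by norm_num)).trans hLx5
  have hM2x : M + 2 ≤ x := by
    have h1 : (M : ℝ) + 2 ≤ L ^ 3 := by
      have h2 : L ^ 3 = L * Λ := by rw [hΛ]; ring
      rw [h2]
      have h3 : (lam + 1) * Λ + 2 ≤ (lam + 5) * Λ := by nlinarith
      have h4 : ((lam : ℝ) + 5) * Λ ≤ L * Λ := mul_le_mul_of_nonneg_right hLlam hΛ0.le
      linarith
    have h2 : ((M + 2 : ℕ) : ℝ) ≤ x := by push_cast; linarith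
    exact_mod_cast h2
  have hx2 : 2 ≤ x := by omega
  have hx0 : (0 : ℝ) < x := by exact_mod_cast (by omega : 0 < x)
  have hLM : L ^ 2 ≤ M := by
    refine le_trans ?_ hMl
    rw [hΛ]
    exact le_mul_of_one_le_left (by positivity) hlamr
  set N : ℝ := ((Bx d H).card : ℝ) with hN
  have hN0 : 0 ≤ N := Nat.cast_nonneg _
  -- numerical conditions
  have n1 : W * S0 / Λ ≤ e1 / (16 * S0) := by
    rw [div_le_div_iff₀ hΛ0 (by positivity)]
    calc (W : ℝ) * S0 * (16 * S0) ≤ (q * L) * S0 * (16 * S0) := by gcongr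
      _ = (16 * S0 ^ 2 * q) * L := by ring
      _ ≤ (L * e1) * L := mul_le_mul_of_nonneg_right hLS hL0.le
      _ = e1 * Λ := by rw [hΛ]; ring
  have n2 : S0 * W ≤ e1 / 16 * x := by
    have h1 : W * S0 * (16 * S0) ≤ e1 * Λ := by
      rw [div_le_div_iff₀ hΛ0 (by positivity)] at n1
      exact n1
    have h2 : Λ ≤ x := by
      refine le_trans ?_ hLx5
      rw [hΛ]
      exact pow_le_pow_right₀ hL1 (by norm_num)
    have h3 : 16 * (S0 * W) * 1 ≤ 16 * (S0 * W) * S0 := by gcongr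
    have h4 : e1 * Λ ≤ e1 * x := mul_le_mul_of_nonneg_left h2 he10.le
    linarith
  have n3 : Real.exp (-(M * e1 / Λ)) ≤ e1 / (16 * S0) := by
    refine le_trans ?_ hlam
    apply Real.exp_le_exp.2
    rw [neg_le_neg_iff, le_div_iff₀ hΛ0]
    calc (lam : ℝ) * e1 * Λ = (lam * Λ) * e1 := by ring
      _ ≤ M * e1 := mul_le_mul_of_nonneg_right hMl he10.le
  have hWΛ : (W : ℝ) ≤ Λ := by
    refine hWL.trans ?_
    rw [hΛ, pow_two]
    exact mul_le_mul_of_nonneg_right hLq hL0.le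
  have n4 : ((M + W) * S0 / Λ) ^ (2 * I + 3) / ((2 * I + 2).factorial : ℝ) * (2 * S0) ≤ e1 / 4 := by
    refine le_trans ?_ hI
    have h1 : (M + W) * S0 / Λ ≤ Θ := by
      rw [div_le_iff₀ hΛ0, hΘ]
      calc ((M : ℝ) + W) * S0 ≤ ((lam + 1) * Λ + Λ) * S0 := by gcongr
        _ = _ := by ring
    gcongr
  have n5 : ∑ j ∈ range (2 * I + 2), e2 * (M : ℝ) ^ (j + 1) / Λ ^ (j + 1) ≤ e1 / 4 := by
    have h1 : ∀ j ∈ range (2 * I + 2), e2 * (M : ℝ) ^ (j + 1) / Λ ^ (j + 1) ≤ e2 * ((lam : ℝ) + 1) ^ (2 * I + 2) := by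
      intro j hj
      rw [mem_range] at hj
      rw [mul_div_assoc, ← div_pow]
      apply mul_le_mul_of_nonneg_left _ he20.le
      have h2 : (M : ℝ) / Λ ≤ lam + 1 := by
        rw [div_le_iff₀ hΛ0]
        exact hMu
      calc ((M : ℝ) / Λ) ^ (j + 1) ≤ ((lam : ℝ) + 1) ^ (j + 1) := pow_le_pow_left₀ (by positivity) h2 _
        _ ≤ _ := pow_le_pow_right₀ (by linarith) (by omega)
    refine (sum_le_sum h1).trans ?_
    rw [sum_const, card_range, nsmul_eq_mul, he2]
    apply le_of_eq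
    push_cast
    field_simp
  -- the exceptional sets
  set E1 : Finset (Fin (d + 1) → ℤ) := (Bx d H).filter (fun v => S0 / 2 * x < ∑ n ∈ Icc 1 x, rh z v n) with hE1
  set F2 : ℕ × ℕ × ℕ → (Fin (d + 1) → ℤ) → ℝ := fun p v => ∑ s ∈ Ioo 0 (M + 1), ∑ u ∈ powersetCard p.2.2 (Ioo 0 s),
      |∑ n ∈ Icc 1 x, ww q p.1 p.2.1 s n * (TT L v n (insert 0 (insert s u)) - RT z v n (insert 0 (insert s u)))| with hF2
  set E2 : ℕ × ℕ × ℕ → Finset (Fin (d + 1) → ℤ) := fun p => (Bx d H).filter (fun v => e2 * (M : ℝ) ^ (p.2.2 + 1) * x < F2 p v)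
    with hE2
  set F3 : ℕ → (Fin (d + 1) → ℤ) → ℝ := fun a v => |∑ n ∈ Icc 1 x, (if n % q = a then 1 else 0) *
      (FQ L v n {0, 2} - RQ z v n {0, 2})| with hF3
  set E3 : ℕ → Finset (Fin (d + 1) → ℤ) := fun a => (Bx d H).filter (fun v => e1 / 2 * x < F3 a v) with hE3
  have hkQ : kQ z {0, 2} ≤ C := by
    have h1 := hC z 1 le_rfl 0 le_rfl 0 (by omega)
    rw [powersetCard_zero, sum_singleton, pow_zero, mul_one, zero_add, pow_one] at h1
    have e : P2 (insert 0 (∅ : Finset ℕ)) = {0, 2} := by decide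
    rw [e] at h1
    exact h1
  have hQ02 : ∀ r ∈ ({0, 2} : Finset ℕ), r ≤ x := by
    intro r hr
    rw [mem_insert, mem_singleton] at hr
    omega
  have hQc : ({0, 2} : Finset ℕ).card = 2 := by decide
  have hE1c : (E1.card : ℝ) ≤ ε1 / 4 * N := by
    have h1 := g3 x hL3x hxB {0, 2} hQ02 (by rw [hQc]; norm_num) (by rw [hQc])
    have h2 : ∑ v ∈ Bx d H, ∑ n ∈ Icc 1 x, rh z v n ≤ 5 * C * x * N := by
      calc _ ≤ ∑ v ∈ Bx d H, ∑ n ∈ Icc 1 x, (FQ L v n {0, 2} + RQ z v n {0, 2}) := by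
            apply sum_le_sum
            intro v _
            apply sum_le_sum
            intro n _
            rw [rh_RQ]
            have := FQ_nonneg hL0.le v n {0, 2}
            linarith
        _ ≤ 5 * kQ z {0, 2} * x * N := h1
        _ ≤ _ := by gcongr
    refine cheb (Bx d H) (fun v => ∑ n ∈ Icc 1 x, rh z v n) (fun v => sum_nonneg fun n _ => rh_nonneg z v n)
      (S0 / 2 * x) (ε1 / 4) (by positivity) (h2.trans (le_of_eq ?_))
    rw [hS0]
    field_simp
    ring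
  set P := (range q) ×ˢ ((range q) ×ˢ (range (2 * I + 2))) with hP
  have hE2c : ∀ p ∈ P, ((E2 p).card : ℝ) ≤ ε1 / (4 * (q ^ 2 * (2 * I + 2))) * N := by
    intro p hp
    rw [hP, mem_product, mem_product, mem_range, mem_range, mem_range] at hp
    have h1 := g1 x (by
      refine le_trans ?_ hx
      exact pow_le_pow_right₀ hL1 (by omega)) hxB M hLM hM2x p.2.2 (by omega) (fun s n => ww q p.1 p.2.1 s n) (fun s n => by
      rw [abs_of_nonneg (ww_nonneg _ _ _ _ _)]
      exact ww_le _ _ _ _ _)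
    refine cheb (Bx d H) (F2 p) (fun v => sum_nonneg fun s _ => sum_nonneg fun u _ => abs_nonneg _)
      (e2 * (M : ℝ) ^ (p.2.2 + 1) * x) _ ?_ (h1.trans (le_of_eq ?_))
    · have : (0 : ℝ) < M := lt_of_lt_of_le (by positivity) hLM
      positivity
    · rw [he3]; ring
  have hE3c : ∀ a ∈ range q, ((E3 a).card : ℝ) ≤ ε1 / (4 * q) * N := by
    intro a _
    have h1 := g2 x hL3x hxB {0, 2} hQ02 (by rw [hQc]; norm_num) (by rw [hQc]) (fun n => if n % q = a then 1 else 0)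
      (fun n => by split_ifs <;> simp)
    refine cheb (Bx d H) (F3 a) (fun v => abs_nonneg _) (e1 / 2 * x) _ (by positivity) (h1.trans ?_)
    rw [he4]
    calc e1 / 2 * (ε1 / (4 * q)) / C * kQ z {0, 2} * x * N ≤ e1 / 2 * (ε1 / (4 * q)) / C * C * x * N := by gcongr
      _ = (e1 / 2 * (ε1 / (4 * q)) * x * N) * (C / C) := by ring
      _ = e1 / 2 * x * (ε1 / (4 * q)) * N := by
          rw [div_self (by linarith : C ≠ 0)]
          ring
  have hsub : (Bx d H).filter (fun v => ¬ ∀ a < q, ∀ b < q,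
      |Λ * nextC (Tw v) q a b x - dens (rh z v) W q a * dens (rh z v) W q b / dens0 (rh z v) W * x| ≤ ε * x ∧
      |Λ * allC (Tw v) q a x - dens (rh z v) W q a * x| ≤ ε * x) ⊆ E1 ∪ P.biUnion E2 ∪ (range q).biUnion E3 := by
    intro v hv
    rw [mem_filter] at hv
    obtain ⟨hvB, hv2⟩ := hv
    by_contra hcon
    rw [mem_union, mem_union, mem_biUnion, mem_biUnion] at hcon
    push Not at hcon
    obtain ⟨⟨hc1, hc2⟩, hc3⟩ := hcon
    apply hv2
    have k1 : ∑ n ∈ Icc 1 x, rh z v n ≤ S0 / 2 * x := by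
      by_contra h
      exact hc1 (mem_filter.2 ⟨hvB, not_le.1 h⟩)
    have k2 : ∀ p ∈ P, F2 p v ≤ e2 * (M : ℝ) ^ (p.2.2 + 1) * x := by
      intro p hp
      by_contra h
      exact hc2 p hp (mem_filter.2 ⟨hvB, not_le.1 h⟩)
    have k3 : ∀ a ∈ range q, F3 a v ≤ e1 / 2 * x := by
      intro a ha
      by_contra h
      exact hc3 a ha (mem_filter.2 ⟨hvB, not_le.1 h⟩)
    have hWr : (0 : ℝ) < W := by exact_mod_cast hW0
    have hSS0 : dens0 (rh z v) W ≤ S0 := by
      have h1 : ∑ n ∈ range W, rh z v n = W * dens0 (rh z v) W := by unfold dens0; field_simp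
      have h2 := (model_sum (rh z v) (rh_nonneg z v) W hW0 (fun n => rh_per z q v n) (dens0 (rh z v) W) h1 0 x).2
      have h3 : Icc 1 x = Ioc 0 (0 + x) := by
        ext n
        rw [mem_Icc, mem_Ioc]
        omega
      rw [← h3] at h2
      have h4 : (W : ℝ) ≤ x / 2 := by
        have h5 : (W : ℝ) ≤ S0 * W := le_mul_of_one_le_left hWr.le hS01
        nlinarith
      have h5 : x / 2 * dens0 (rh z v) W ≤ x / 2 * S0 := by
        have h6 : 0 ≤ dens0 (rh z v) W := by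
          unfold dens0
          exact div_nonneg (sum_nonneg fun n _ => rh_nonneg z v n) hWr.le
        nlinarith
      exact le_of_mul_le_mul_left h5 (by positivity)
    have hfin := fin_v (Tw v) (rh z v) (rh_nonneg z v) W q hq hW0 (Dvd.intro _ rfl) (fun n => rh_per z q v n) Λ hΛ0
      (fun n => (rh_le z v n).trans (by
        rw [hΛ]
        exact pow_le_pow_left₀ (by linarith) hCzL 2)) x M I e1 e2 S0 he10 (he11.trans hε11) hS01 hSS0
      (by
        intro a ha b hb j hj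
        have h1 := k2 (a, b, j) (by
          rw [hP, mem_product, mem_product]
          exact ⟨mem_range.2 ha, mem_range.2 hb, hj⟩)
        rw [hF2] at h1
        simp only at h1
        refine le_trans (le_of_eq ?_) h1
        apply sum_congr rfl
        intro s _
        apply sum_congr rfl
        intro u _
        congr 1
        apply sum_congr rfl
        intro n _
        rw [TT_PP, RT_PP])
      (by
        intro a ha
        have h1 := k3 a (mem_range.2 ha)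
        rw [hF3] at h1
        simp only at h1
        refine le_trans (le_of_eq ?_) h1
        rw [hΛ, allC_eq, ← sum_sub_distrib]
        congr 1
        apply sum_congr rfl
        intro n _
        rw [rh_RQ]
        split_ifs <;> ring)
      n1 n2 n3 n4 n5
    intro a ha b hb
    obtain ⟨r1, r2⟩ := hfin a ha b hb
    rw [he1ε] at r1
    refine ⟨r1.trans ?_, r2.trans ?_⟩
    · exact mul_le_mul_of_nonneg_right hε1ε hx0.le
    · exact mul_le_mul_of_nonneg_right (he11.trans hε1ε) hx0.le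
  have hq2 : (0 : ℝ) < q ^ 2 * (2 * I + 2) := by positivity
  calc _ ≤ ((E1 ∪ P.biUnion E2 ∪ (range q).biUnion E3).card : ℝ) := by exact_mod_cast card_le_card hsub
    _ ≤ (E1.card : ℝ) + ((P.biUnion E2).card : ℝ) + (((range q).biUnion E3).card : ℝ) := by
        have h1 := card_union_le (E1 ∪ P.biUnion E2) ((range q).biUnion E3)
        have h2 := card_union_le E1 (P.biUnion E2)
        exact_mod_cast h1.trans (Nat.add_le_add_right h2 _)
    _ ≤ ε1 / 4 * N + ∑ p ∈ P, ((E2 p).card : ℝ) + ∑ a ∈ range q, ((E3 a).card : ℝ) := by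
        have h1 : ((P.biUnion E2).card : ℝ) ≤ ∑ p ∈ P, ((E2 p).card : ℝ) := by exact_mod_cast card_biUnion_le
        have h2 : (((range q).biUnion E3).card : ℝ) ≤ ∑ a ∈ range q, ((E3 a).card : ℝ) := by exact_mod_cast card_biUnion_le
        linarith
    _ ≤ ε1 / 4 * N + ∑ p ∈ P, ε1 / (4 * (q ^ 2 * (2 * I + 2))) * N + ∑ a ∈ range q, ε1 / (4 * q) * N := by
        have h1 := sum_le_sum hE2c
        have h2 := sum_le_sum hE3c
        linarith
    _ = 3 / 4 * ε1 * N := by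
        rw [sum_const, sum_const, card_range, hP, card_product, card_product, card_range, card_range, nsmul_eq_mul, nsmul_eq_mul]
        push_cast
        have : (q : ℝ) ≠ 0 := by positivity
        field_simp
        ring
    _ ≤ ε * N := by
        apply mul_le_mul_of_nonneg_right _ hN0
        linarith

end Pool.Agent.Helper82K9.PV
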